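import Pool.Agent.H93.CUBE.LStmts
import Pool.Agent.H44.CM.XDE

/-!
# Cube project (MP_47888e_al), block LIMIT: module EXG

Gauge transforms over `E(x)` and over Laurent series: expansion at `0` commutes with `x d/dx`,
hence with the gauge transformation.
-/

set_option autoImplicit false

open Polynomial Pool.CM

namespace Pool.H93.Cube

namespace EXG

/-- an index set of places -/
def idx0 : Idx where
  I := {p : ℕ // p.Prime}
  p := Subtype.val
  hp := Subtype.property
  unb B := by
    obtain ⟨p, h1, h2⟩ := Nat.exists_infinite_primes (B + 1)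
    exact ⟨⟨p, h2⟩, h1⟩

/-- a trivial structure, used to apply the statement XDE -/
def pf0 (E : Type) [Field E] : PF idx0 E where
  O _ := ⊤
  phi _ := RingHom.id E
  pol _ _ := ⊥
  den _ _ := ∅
  J := Empty
  D := Empty.elim

/-- expansion at `0` commutes with `x d/dx` -/
theorem ex_nabF {E : Type} [Field E] (x : RatFunc E) : ex E (nabF E x) = nab (ex E x) := by
  ext k
  exact (xde idx0 E (pf0 E) x k).1

theorem map_ex_nabF {E : Type} [Field E] {m m' : Type} (H : Matrix m m' (RatFunc E)) :
    (H.map (nabF E)).map (ex E) = (H.map (ex E)).map nab := by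
  ext1 a b
  exact ex_nabF _

end EXG

theorem EXG_thm : EXGStmt := by
  intro E _ m m' _ _ H H' G
  rw [gau, Matrix.map_add _ (map_add (ex E)), Matrix.map_mul, Matrix.map_mul, Matrix.map_mul,
    EXG.map_ex_nabF]

end Pool.H93.Cube
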