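import Pool.Agent.H93.CUBE.LStmts
import Pool.Agent.H10.CM.All

/-!
# Cube project (MP_47888e_al), block LIMIT: module EXI

Expansions of fixed elements of `E(x)` have integral coefficients at almost all places.
-/

set_option autoImplicit false

open Polynomial Pool.CM

namespace Pool.H93.Cube

theorem EXI_thm : EXIStmt := by
  intro X E _ A hA x
  obtain ⟨d, hd⟩ := Pool.CM.All.tfx X (RatFunc E) A.ext (Pool.CM.All.ext X E A hA) x
  exact hd.mono fun i hi => (Pool.CM.All.xt X E A hA i d x hi).1

end Pool.H93.Cube
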