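import Pool.Agent.H93.CUBE.LStmts
import Pool.Agent.H44.CM.XDE

/-!
# Cube project (MP_47888e_al), block LIMIT: module LDD

The induced connection in the directions of the derivations of `E`.
-/

set_option autoImplicit false

open Polynomial Pool.CM

namespace Pool.H93.Cube

namespace LDD

set_option linter.unusedSectionVars false

variable {E : Type} [Field E] {m u : Type} [Fintype m] [DecidableEq m] [Fintype u] [DecidableEq u]

/-- iterating the operator on the columns of a matrix -/
noncomputable def itM (T : Matrix m m (LaurentSeries E)) (W : Matrix m u (LaurentSeries E)) :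
    ℕ → Matrix m u (LaurentSeries E)
  | 0 => W
  | k + 1 => (itM T W k).map nab + T * itM T W k

theorem op_col (T : Matrix m m (LaurentSeries E)) (W : Matrix m u (LaurentSeries E)) (b : u) :
    op T (fun a => W a b) = fun a => (W.map nab + T * W) a b := by
  funext a
  rw [op_apply, Matrix.add_apply, Matrix.map_apply, Matrix.mul_apply]

theorem op_pow_col (T : Matrix m m (LaurentSeries E)) (W : Matrix m u (LaurentSeries E)) (b : u)
    (k : ℕ) : ((op T) ^ k) (fun a => W a b) = fun a => itM T W k a b := by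
  induction k with
  | zero => rfl
  | succ k ih =>
    rw [pow_succ', Module.End.mul_apply, ih, op_col]
    rfl

theorem itM_add (T : Matrix m m (LaurentSeries E)) (W : Matrix m u (LaurentSeries E)) (j k : ℕ) :
    itM T W (j + k) = itM T (itM T W j) k := by
  induction k with
  | zero => rfl
  | succ k ih =>
    rw [← add_assoc]
    change (itM T W (j + k)).map nab + T * itM T W (j + k) = _
    rw [ih]
    rfl

theorem cmapR_id (f : LaurentSeries E) : cmapR (RingHom.id E) f = f := by
  ext k
  rfl

theorem cM_zero : cM (0 : Matrix u u E) = 0 := by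
  ext1 a b
  exact map_zero (HahnSeries.C : E →+* LaurentSeries E)

theorem cM_add (A B : Matrix u u E) : cM (A + B) = cM A + cM B :=
  Matrix.map_add _ (map_add HahnSeries.C) A B

theorem map_cmap_cM (δ : Derivation ℤ E E) (N : Matrix u u E) :
    (cM N).map (cmap (δ : E →+ E)) = cM (N.map δ) := by
  ext1 a b
  simp only [Matrix.map_apply]
  ext k
  rw [cmap_coeff, HahnSeries.C_apply, HahnSeries.C_apply]
  by_cases h : k = 0
  · subst h
    rw [HahnSeries.coeff_single_same, HahnSeries.coeff_single_same]
    rfl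
  · rw [HahnSeries.coeff_single_of_ne h, HahnSeries.coeff_single_of_ne h, map_zero]

theorem itM_Z {T : Matrix m m (LaurentSeries E)} {Z : Matrix m u (LaurentSeries E)}
    {N : Matrix u u E} (hZ : Z.map nab + T * Z = Z * cM N) (B : Matrix u u E) (k : ℕ) :
    itM T (Z * cM B) k = Z * cM (N ^ k * B) := by
  induction k with
  | zero => rw [pow_zero, Matrix.one_mul]; rfl
  | succ k ih =>
    change (itM T (Z * cM B) k).map nab + T * itM T (Z * cM B) k = _
    rw [ih, mapNab_mul, mapNab_cM, Matrix.mul_zero, add_zero, ← Matrix.mul_assoc,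
      ← Matrix.add_mul, hZ, Matrix.mul_assoc, ← cM_mul, pow_succ', Matrix.mul_assoc]

theorem itM_W {T : Matrix m m (LaurentSeries E)} {Z W : Matrix m u (LaurentSeries E)}
    {N N' : Matrix u u E} (hZ : Z.map nab + T * Z = Z * cM N)
    (hW : W.map nab + T * W = W * cM N + Z * cM N') (k : ℕ) :
    ∃ B : Matrix u u E, itM T W k = W * cM (N ^ k) + Z * cM B := by
  induction k with
  | zero =>
    refine ⟨0, ?_⟩
    rw [pow_zero, cM_one, cM_zero, Matrix.mul_one, Matrix.mul_zero, add_zero]
    rfl
  | succ k ih =>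
    obtain ⟨B, hB⟩ := ih
    refine ⟨N' * N ^ k + N * B, ?_⟩
    change (itM T W k).map nab + T * itM T W k = _
    rw [hB, Matrix.map_add _ (map_add nab), mapNab_mul, mapNab_mul, mapNab_cM, mapNab_cM,
      Matrix.mul_zero, Matrix.mul_zero, add_zero, add_zero, Matrix.mul_add,
      ← Matrix.mul_assoc T, ← Matrix.mul_assoc T]
    have h1 : W.map nab * cM (N ^ k) + Z.map nab * cM B + (T * W * cM (N ^ k) + T * Z * cM B) =
        (W.map nab + T * W) * cM (N ^ k) + (Z.map nab + T * Z) * cM B := by
      rw [Matrix.add_mul, Matrix.add_mul]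
      abel
    rw [h1, hW, hZ, Matrix.add_mul, Matrix.mul_assoc, Matrix.mul_assoc, Matrix.mul_assoc,
      ← cM_mul, ← cM_mul, ← cM_mul, ← pow_succ', cM_add, Matrix.mul_add, add_assoc]

/-- the key computation -/
theorem key (δ : Derivation ℤ E E) (G0 : Matrix m m (RatFunc E))
    (S : Matrix m m (LaurentSeries E))
    (hfl : S.map nab + G0.map (ex E) * S =
      (G0.map (ex E)).map (cmap (δ : E →+ E)) + S * G0.map (ex E)) (d : LD0 G0 u) :
    ∃ G' : Matrix u u E, d.Z.map (cmap (δ : E →+ E)) + S * d.Z = d.Z * cM G' := by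
  obtain ⟨Z, Z', N, ZZ, nil, hZ, hZ', compl, compl'⟩ := d
  change ∃ G' : Matrix u u E, Z.map (cmap (δ : E →+ E)) + S * Z = Z * cM G'
  obtain ⟨W, hWdef⟩ : ∃ W, W = Z.map (cmap (δ : E →+ E)) + S * Z := ⟨_, rfl⟩
  rw [← hWdef]
  obtain ⟨T, hT⟩ : ∃ T, T = G0.map (ex E) := ⟨_, rfl⟩
  rw [← hT] at hfl hZ
  have hcomm : (Z.map (cmap (δ : E →+ E))).map nab = (Z.map nab).map (cmap (δ : E →+ E)) := by
    ext1 a b
    exact nab_cmap δ _
  have hW : W.map nab + T * W = W * cM N + Z * cM (N.map δ) := by
    have h1 : (Z.map nab + T * Z).map (cmap (δ : E →+ E)) =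
        (Z * cM N).map (cmap (δ : E →+ E)) := by rw [hZ]
    rw [Matrix.map_add _ (map_add (cmap (δ : E →+ E))), mapCmap_mul, mapCmap_mul,
      map_cmap_cM] at h1
    have h2 : S * (Z.map nab + T * Z) = S * (Z * cM N) := by rw [hZ]
    have h3 : (S.map nab + T * S) * Z = (T.map (cmap (δ : E →+ E)) + S * T) * Z := by rw [hfl]
    rw [Matrix.mul_add] at h2
    rw [Matrix.add_mul, Matrix.add_mul] at h3
    rw [hWdef, Matrix.map_add _ (map_add nab), mapNab_mul, hcomm, Matrix.mul_add, Matrix.add_mul,
      ← Matrix.mul_assoc T, Matrix.mul_assoc S, ← h2]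
    have h4 : (Z.map nab).map (cmap (δ : E →+ E)) =
        Z.map (cmap (δ : E →+ E)) * cM N + Z * cM (N.map δ) -
          (T.map (cmap (δ : E →+ E)) * Z + T * Z.map (cmap (δ : E →+ E))) := by
      rw [← h1]
      abel
    have h5 : S.map nab * Z = T.map (cmap (δ : E →+ E)) * Z + S * T * Z - T * S * Z := by
      rw [← h3]
      abel
    rw [h4, h5, Matrix.mul_assoc S T Z]
    abel
  obtain ⟨k, hk⟩ := nil
  have hzero : itM T W (k + k) = 0 := by
    obtain ⟨B, hB⟩ := itM_W hZ hW k
    rw [itM_add, hB, hk, cM_zero, Matrix.mul_zero, zero_add, itM_Z hZ, hk, Matrix.zero_mul,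
      cM_zero, Matrix.mul_zero]
  have hx : ∀ b : u, ∃ x : u → E, ∀ a, W a b = ∑ c, Z a c * HahnSeries.C (x c) := by
    intro b
    have h1 := compl E (RingHom.id E) (k + k) (fun a => W a b) (by
      have h2 : G0.map ((cmapR (RingHom.id E)).comp (ex E)) = T := by
        rw [hT]
        ext1 a c
        exact cmapR_id _
      rw [h2, op_pow_col, hzero]
      rfl)
    obtain ⟨x, hx⟩ := h1
    refine ⟨x, fun a => ?_⟩
    rw [hx a]
    exact Finset.sum_congr rfl fun c _ => by rw [cmapR_id]
  choose x hx using hx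
  refine ⟨Matrix.of fun c b => x b c, ?_⟩
  ext1 a b
  rw [hx b a, Matrix.mul_apply]
  rfl

end LDD

theorem LDD_thm : LDDStmt := by
  intro X E _ A _ m _ _ G hflat u _ _ d
  have hxn : ∀ H : Matrix m m (RatFunc E),
      (H.map (A.ext.D none)).map (ex E) = (H.map (ex E)).map nab := by
    intro H
    ext1 a b
    simp only [Matrix.map_apply]
    ext k
    exact (xde X E A (H a b) k).1
  have hxs : ∀ (H : Matrix m m (RatFunc E)) (j : A.J),
      (H.map (A.ext.D (some j))).map (ex E) = (H.map (ex E)).map (cmap (A.D j : E →+ E)) := by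
    intro H j
    ext1 a b
    simp only [Matrix.map_apply]
    ext k
    exact (xde X E A (H a b) k).2 j
  have hS : ∀ j : A.J, ((G (some j)).map (ex E)).map nab +
      (G none).map (ex E) * (G (some j)).map (ex E) =
      ((G none).map (ex E)).map (cmap (A.D j : E →+ E)) +
        (G (some j)).map (ex E) * (G none).map (ex E) := by
    intro j
    have h := congrArg (fun Q : Matrix m m (RatFunc E) => Q.map (ex E)) (hflat none (some j))
    rw [Matrix.map_add _ (map_add (ex E)), Matrix.map_add _ (map_add (ex E)), Matrix.map_mul,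
      Matrix.map_mul, hxn, hxs] at h
    exact h
  have h1 : ∀ j : A.J, ∃ G' : Matrix u u E,
      d.Z.map (cmap (A.D j : E →+ E)) + (G (some j)).map (ex E) * d.Z = d.Z * cM G' :=
    fun j => LDD.key (A.D j) (G none) _ (hS j) d
  have h2 : ∀ j : A.J, ∃ G' : Matrix u u E,
      d.Z'.map (cmap (A.D j : E →+ E)) + (-((G (some j)).map (ex E)).transpose) * d.Z' =
        d.Z' * cM G' := by
    intro j
    refine LDD.key (A.D j) (-(G none).transpose) _ ?_ d.dual
    have e1 : (-(G none).transpose).map (ex E) = -((G none).map (ex E)).transpose := by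
      ext1 a b
      simp
    have e2 : (-((G (some j)).map (ex E)).transpose).map nab =
        -((((G (some j)).map (ex E)).map nab).transpose) := by
      ext1 a b
      simp only [Matrix.map_apply, Matrix.neg_apply, Matrix.transpose_apply, map_neg]
    have e3 : (-((G none).map (ex E)).transpose).map (cmap (A.D j : E →+ E)) =
        -((((G none).map (ex E)).map (cmap (A.D j : E →+ E))).transpose) := by
      ext1 a b
      simp only [Matrix.map_apply, Matrix.neg_apply, Matrix.transpose_apply, map_neg]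
    rw [e1, e2, e3, Matrix.neg_mul, Matrix.mul_neg, neg_neg, Matrix.neg_mul, Matrix.mul_neg,
      neg_neg, ← Matrix.transpose_mul, ← Matrix.transpose_mul]
    have h3 := congrArg Matrix.transpose (hS j)
    rw [Matrix.transpose_add, Matrix.transpose_add] at h3
    have h4 := eq_sub_of_add_eq h3
    rw [h4]
    abel
  choose G' hG' using h1
  choose G2 hG2 using h2
  refine ⟨G', hG', fun j => ?_⟩
  obtain ⟨Z, Z', N, ZZ, nil, hZ, hZ', compl, compl'⟩ := d
  change Z'.map (cmap (A.D j : E →+ E)) - ((G (some j)).map (ex E)).transpose * Z' =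
      -(Z' * cM (G' j).transpose)
  have hA : Z.map (cmap (A.D j : E →+ E)) + (G (some j)).map (ex E) * Z = Z * cM (G' j) := hG' j
  have hB : Z'.map (cmap (A.D j : E →+ E)) + (-((G (some j)).map (ex E)).transpose) * Z' =
      Z' * cM (G2 j) := hG2 j
  rw [Matrix.neg_mul, ← sub_eq_add_neg] at hB
  rw [hB]
  obtain ⟨S, hSd⟩ : ∃ S, S = (G (some j)).map (ex E) := ⟨_, rfl⟩
  rw [← hSd] at hA hB
  have hone : (Z'.transpose * Z).map (cmap (A.D j : E →+ E)) = 0 := by
    rw [ZZ]
    have : (1 : Matrix u u (LaurentSeries E)) = cM 1 := cM_one.symm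
    rw [this, LDD.map_cmap_cM]
    ext1 a b
    simp only [Matrix.map_apply, Matrix.one_apply]
    split_ifs
    · simp
    · simp
  rw [mapCmap_mul] at hone
  have hT : Z'.transpose.map (cmap (A.D j : E →+ E)) =
      (Z'.map (cmap (A.D j : E →+ E))).transpose := rfl
  have hA' := eq_sub_of_add_eq hA
  have hB' := sub_eq_iff_eq_add.1 hB
  rw [hT, hB', hA', Matrix.transpose_add, Matrix.transpose_mul, Matrix.transpose_mul,
    Matrix.transpose_transpose, Matrix.add_mul, Matrix.mul_sub, Matrix.mul_assoc,
    ZZ, Matrix.mul_one, ← Matrix.mul_assoc Z'.transpose Z, ZZ, Matrix.one_mul,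
    ← Matrix.mul_assoc Z'.transpose S] at hone
  have h5 : (cM (G2 j)).transpose = -cM (G' j) := by
    have h6 : (cM (G2 j)).transpose + cM (G' j) =
        (cM (G2 j)).transpose + Z'.transpose * S * Z +
          (cM (G' j) - Z'.transpose * S * Z) := by abel
    rw [hone] at h6
    exact eq_neg_of_add_eq_zero_left h6
  have h7 : cM (G2 j) = -(cM (G' j).transpose) := by
    have h8 := congrArg Matrix.transpose h5
    rw [Matrix.transpose_transpose] at h8
    rw [h8]
    rfl
  rw [h7, Matrix.mul_neg]

end Pool.H93.Cube
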