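import Pool.Agent.H53.CUBE.JFf

/-!
# Cube project (MP_47888e_al), block TAME part J, module JF
-/

set_option autoImplicit false
set_option linter.unusedSectionVars false

open Finset MvPolynomial Pool.CM

namespace Pool.CUBE

namespace JF53

section
variable {B : Type} [CommRing B] [Algebra ℚ B] {O0 : Subring B} {n : ℕ}

theorem tl_bound {a M p : ℕ} (hp : 2 ≤ p) (h : a ≤ p * M) : (a + p - 1) / p ≤ M := by
  have hp0 : 0 < p := by omega
  have h1 : (a + p - 1) / p < M + 1 := by
    rw [Nat.div_lt_iff_lt_mul hp0]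
    have : (M + 1) * p = p * M + p := by ring
    omega
  omega

theorem tl_le {a p : ℕ} (hp : 2 ≤ p) : (a + p - 1) / p ≤ a := by
  refine tl_bound hp ?_
  calc a = 1 * a := (one_mul a).symm
    _ ≤ p * a := Nat.mul_le_mul_right a (by omega)

/-- existence of `E1`, `Es`, `Xp` -/
theorem exE {p : ℕ} (hp : p.Prime) {φ : B →+* B} (hφ : ∀ x ∈ O0, φ x ∈ O0)
    (hφp : ∀ x ∈ O0, ∃ y ∈ O0, φ x = x ^ p + p * y) {D : ℕ} {X1 : Poly n B}
    {Y : Poly n O0} (hY : map O0.subtype Y = X1) (hYh : Y.IsHomogeneous D) :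
    ∃ (Xp Es : Poly n O0) (E1 : Poly n (Polynomial O0)), map O0.subtype Xp = map φ X1 ∧
      Xp.IsHomogeneous D ∧ Es.IsHomogeneous p ∧ E1.IsHomogeneous (p * D) ∧
      Fx D Polynomial.X (map Polynomial.C Y) ^ p =
        expand p (Fx D (Polynomial.X ^ p) (map Polynomial.C Xp)) +
          (p : Poly n (Polynomial O0)) * E1 ∧
      Sg n O0 ^ p = expand p (Sg n O0) + (p : Poly n O0) * Es := by
  have hp0 : p ≠ 0 := hp.ne_zero
  set Φ : O0 →+* O0 := (φ.comp O0.subtype).codRestrict O0 (fun x => hφ x x.2) with hΦ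
  have hΦc : ∀ x : O0, ((Φ x : O0) : B) = φ x := fun x => rfl
  have hΦp : ∀ x : O0, ∃ y : O0, Φ x = x ^ p + p * y := by
    intro x
    obtain ⟨y, hy, e⟩ := hφp x x.2
    refine ⟨⟨y, hy⟩, Subtype.ext ?_⟩
    rw [hΦc, e]
    simp
  have hO : ∀ x y : O0, (p : O0) * x = (p : O0) * y → x = y := fun x y h => cancelO hp0 h
  have hPO : ∀ x y : Polynomial O0, (p : Polynomial O0) * x = (p : Polynomial O0) * y → x = y :=
    fun x y h => cancelPoly hO h
  obtain ⟨Es, hEs⟩ := mv_frob hp Φ hΦp (Sg n O0)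
  rw [map_Sg] at hEs
  set Φ1 : Polynomial O0 →+* Polynomial O0 :=
    (Polynomial.expand O0 p).toRingHom.comp (Polynomial.mapRingHom Φ) with hΦ1
  have hΦ1p : ∀ x : Polynomial O0, ∃ y : Polynomial O0, Φ1 x = x ^ p + p * y :=
    fun x => poly_frob hp Φ hΦp x
  have hΦ1C : Φ1.comp Polynomial.C = (Polynomial.C : O0 →+* Polynomial O0).comp Φ := by
    refine RingHom.ext fun r => ?_
    change Polynomial.expand O0 p ((Polynomial.C r).map Φ) = Polynomial.C (Φ r)
    rw [Polynomial.map_C, Polynomial.expand_C]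
  have hΦ1X : Φ1 Polynomial.X = Polynomial.X ^ p := by
    change Polynomial.expand O0 p (Polynomial.X.map Φ) = Polynomial.X ^ p
    rw [Polynomial.map_X, Polynomial.expand_X]
  obtain ⟨E1, hE1⟩ := mv_frob hp Φ1 hΦ1p (Fx D Polynomial.X (map Polynomial.C Y))
  rw [Fx_map, hΦ1X, MvPolynomial.map_map, hΦ1C, ← MvPolynomial.map_map] at hE1
  have hXp : map O0.subtype (map Φ Y) = map φ X1 := by
    rw [← hY, MvPolynomial.map_map, MvPolynomial.map_map]
    rfl
  have hEs' : Sg n O0 ^ p = expand p (Sg n O0) + (p : Poly n O0) * (-Es) := by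
    rw [hEs]; ring
  have hE1' : Fx D Polynomial.X (map Polynomial.C Y) ^ p =
        expand p (Fx D (Polynomial.X ^ p) (map Polynomial.C (map Φ Y))) +
          (p : Poly n (Polynomial O0)) * (-E1) := by
    rw [hE1]; ring
  refine ⟨map Φ Y, -Es, -E1, hXp, hYh.map _, ?_, ?_, hE1', hEs'⟩
  · refine hom_of_mul (k := p) hO ?_
    have e : (p : Poly n O0) * (-Es) = Sg n O0 ^ p - expand p (Sg n O0) := by
      rw [hEs']; ring
    rw [e]
    have h1 := (Sg_hom (n := n) O0).pow p
    have h2 := expand_isHomogeneous (Sg_hom (n := n) O0) p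
    rw [one_mul] at h1
    rw [mul_one] at h2
    exact sub_hom h1 h2
  · refine hom_of_mul (k := p) hPO ?_
    have e : (p : Poly n (Polynomial O0)) * (-E1) =
        Fx D Polynomial.X (map Polynomial.C Y) ^ p -
        expand p (Fx D (Polynomial.X ^ p) (map Polynomial.C (map Φ Y))) := by
      rw [hE1']; ring
    rw [e]
    have h1 := (Fx_hom (Polynomial.X : Polynomial O0)
      (hYh.map (Polynomial.C : O0 →+* Polynomial O0))).pow p
    have h2 := expand_isHomogeneous (Fx_hom ((Polynomial.X : Polynomial O0) ^ p)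
      ((hYh.map Φ).map (Polynomial.C : O0 →+* Polynomial O0))) p
    rw [mul_comm D p] at h1
    exact sub_hom h1 h2

/-- the value of `S` -/
theorem S_eq (hF1 : F1Stmt) (hIOB : IOBStmt) {p : ℕ} (hp : p.Prime)
    (hinv : ∀ m : ℕ, ¬ p ∣ m → algebraMap ℚ B ((m : ℚ)⁻¹) ∈ O0)
    {D J c J' m l : ℕ} (hD : 0 < D) (hm : 1 ≤ m) (hJ' : J' = J + D * c) (h1 : 1 ≤ J')
    (h2 : J' + 2 ≤ p) (h3 : n + 1 ≤ p) (hcp : D * c + 1 + J' < p)
    (hal : D * (m + l) ≤ p * (D * c + 1)) {Y Es : Poly n O0} (hYh : Y.IsHomogeneous D)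
    (hEsh : Es.IsHomogeneous p) (hEs : Sg n O0 ^ p = expand p (Sg n O0) + (p : Poly n O0) * Es)
    {g : Poly n O0} (hg : Wt (D * m) g) (tl : ℕ → ℕ) (htl : tl l = (D * (m + l) + p - 1) / p) :
    ∃ y ∈ O0, ((∑ j ∈ range J', ((tl l + j - 1).choose j : O0) * (-(p : O0)) ^ j *
      IoA (tl l + j) (psi p (g * Y ^ l * Sg n O0 ^ (p * tl l - D * (m + l)) * Es ^ j)) : O0) : B) -
      (p : B) ^ n * IoQ (map O0.subtype (g * Y ^ l)) = (p : B) ^ J * y := by
  have hp2 := hp.two_le
  have hp0 := hp.pos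
  have hu := unit_O (O0 := O0) hinv
  set a := D * (m + l) with ha
  have ha1 : 1 ≤ a := Nat.mul_pos hD (by omega)
  have ht1 : 1 ≤ tl l := by rw [htl]; exact RHB.t_pos hp2 ha1
  have hta : a ≤ p * tl l := by rw [htl]; exact RHB.t_spec hp2
  have htb : tl l ≤ D * c + 1 := by rw [htl]; exact tl_bound hp2 hal
  have hw : Wt a (g * Y ^ l) := by
    have := RHB.wt_mul hg (hYh.pow l)
    rwa [← mul_add] at this
  obtain ⟨y, hy, e⟩ := hF1 B O0 p hp hinv n J' h1 h2 h3 (map O0.subtype Es) (by
    have h := congrArg (map O0.subtype) hEs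
    rw [map_pow, map_add, RingHom.map_mul, map_natCast, map_expand, map_Sg] at h
    exact h) a (tl l) ht1 (by rw [htl]; exact tl_le hp2) hta (map O0.subtype (g * Y ^ l))
    (wt_map _ hw) (fun c => by rw [coeff_map]; exact Subtype.property _)
  have eS : ∑ j ∈ range J', ((tl l + j - 1).choose j : B) *
      (-(p : B)) ^ j * IoQ (psi p (map O0.subtype (g * Y ^ l) * Sg n B ^ (p * tl l - a) *
        map O0.subtype Es ^ j)) =
      ((∑ j ∈ range J', ((tl l + j - 1).choose j : O0) * (-(p : O0)) ^ j *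
      IoA (tl l + j) (psi p (g * Y ^ l * Sg n O0 ^ (p * tl l - a) * Es ^ j)) : O0) : B) := by
    have e0 : ∀ x : O0, (x : B) = O0.subtype x := fun x => rfl
    rw [e0, map_sum]
    refine Finset.sum_congr rfl fun j hj => ?_
    have hj' := mem_range.1 hj
    have hsg : (Sg n O0 ^ (p * tl l - a)).IsHomogeneous (p * tl l - a) := by
      have := (Sg_hom (n := n) O0).pow (p * tl l - a)
      rwa [one_mul] at this
    have hww : Wt (tl l + j)
        (psi p (g * Y ^ l * Sg n O0 ^ (p * tl l - a) * Es ^ j)) := by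
      refine RHB.wt_psi hp0 ?_
      have h5 := RHB.wt_mul (RHB.wt_mul hw hsg) (hEsh.pow j)
      have e6 : a + (p * tl l - a) + p * j = p * (tl l + j) := by
        rw [Nat.add_sub_cancel' hta]; ring
      rwa [e6] at h5
    have e7 : psi p (map O0.subtype (g * Y ^ l) * Sg n B ^ (p * tl l - a) *
        map O0.subtype Es ^ j) =
        map O0.subtype (psi p (g * Y ^ l * Sg n O0 ^ (p * tl l - a) * Es ^ j)) := by
      have hmm : ∀ u v w : Poly n O0, map O0.subtype (u * v * w) =
          map O0.subtype u * map O0.subtype v * map O0.subtype w := fun u v w => by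
        rw [RingHom.map_mul, RingHom.map_mul]
      rw [RHB.map_psi O0.subtype hp0, hmm, map_pow, map_pow, map_Sg]
    rw [e7, IoQ_IoA hIOB (facUnit hu (by omega)) hww, e0, RingHom.map_mul O0.subtype,
      RingHom.map_mul O0.subtype, RingHom.map_pow O0.subtype, RingHom.map_neg O0.subtype,
      map_natCast, map_natCast]
  rw [eS] at e
  obtain ⟨w, hw, ew⟩ := facw' (O0 := O0) hp hinv (a - 1) (D * c) (by omega) (by omega)
  refine ⟨y * w, O0.mul_mem hy hw, ?_⟩
  have hpB : (p ^ (D * c)) ≠ 0 := pow_ne_zero _ (by omega)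
  refine cancelB hpB ?_
  rw [Nat.cast_pow, ← ew]
  have e8 : (p : B) ^ J' = (p : B) ^ J * (((a - 1).factorial : ℕ) * w) := by
    rw [ew, ← pow_add, hJ']
  rw [e8] at e
  linear_combination w * e

end

end JF53

open JF53 in
theorem JF_proof (hF1 : F1Stmt) (hF2 : F2Stmt) (hIOB : IOBStmt) : JFStmt := by
  intro n D J c hD hJ
  set J' := J + D * c with hJ'
  refine ⟨D * (1 + J' + (c + 1)) + D * (n + 1) + D * c + J' + n + 20, ?_⟩
  intro B _ _ O0 φ p hp hpp hinv hφ hφp X1 hX1 hX1c γ hγ EL hEL m a hm hmn ha k hk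
  have hp2 := hp.two_le
  have hp0 := hp.pos
  have hu := unit_O (O0 := O0) hinv
  obtain ⟨Y, hY, hYh⟩ := liftO hX1 hX1c
  obtain ⟨Xp, Es, E1, hXp, hXph, hEsh, hE1h, hE1, hEs⟩ := exE hp hφ hφp hY hYh
  have hmp : m ≤ p := by omega
  set F := Fx D Polynomial.X (map Polynomial.C Y) with hF
  set Xb := C (Polynomial.X ^ p) * map Polynomial.C Xp with hXb
  set g : Poly n O0 := monomial a 1 with hg
  have hgC : map Polynomial.C g = (monomial a 1 : Poly n (Polynomial O0)) := by
    rw [hg, map_monomial, Polynomial.C_1]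
  -- the coefficient of `J^φ(ρ(z^a))`
  have hDm : (a.degree + (n + 1)) / D = m := by rw [ha, Nat.mul_div_cancel_left _ hD]
  have ht1 : (m + p - 1) / p = 1 := by
    have e : m + p - 1 = (m - 1) + p := by omega
    rw [e, Nat.add_div_right _ hp0, Nat.div_eq_of_lt (by omega)]
  have hK : FD.K m 1 = (m - 1).factorial := by
    rw [FD.K, Nat.descFactorial_self]
  have hrho : (JLp D X1 φ p hp.pos (rho0 p D J γ (PL D X1) EL (monomial a 1))).coeff k =
      (((m - 1).factorial : ℕ) : B) * (ioL O0 (∑ j ∈ range J,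
        lT D p m (c + 1) (monomial a 1) F E1 Xb j)).coeff (k - m) := by
    rw [RHB.rho0_monomial, hDm, ht1, hK, if_pos ⟨m, ha⟩, one_smul, map_smul, smul_eq_mul,
      coeff_natCast_mul, map_sum, HahnSeries.coeff_sum, map_sum, HahnSeries.coeff_sum]
    congr 1
    refine Finset.sum_congr rfl fun j hj => ?_
    have hj' := mem_range.1 hj
    rw [map_smul, smul_eq_mul]
    refine term_eq hIOB hD hp0 hY hXp hYh hXph hu hE1h hE1 hEL hγ hmp ha ?_ k ?_
    · have h3 : D * (1 + j + (c + 1)) ≤ D * (1 + J' + (c + 1)) :=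
        Nat.mul_le_mul_left D (by omega)
      omega
    · push_cast
      have h4 : (p : ℤ) * (c + 1) = c * p + p := by ring
      rw [h4]
      have : (0 : ℤ) < p := by exact_mod_cast hp0
      omega
  have hJL : ((p : LaurentSeries B) ^ n * JL D X1 (monomial a 1)).coeff k =
      (p : B) ^ n * (jL D X1 a).coeff k := by
    have h2 : (p : LaurentSeries B) ^ n = ((p ^ n : ℕ) : LaurentSeries B) := by push_cast; rfl
    rw [h2, coeff_natCast_mul, JL, linMon_monomial, one_smul, Nat.cast_pow]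
  rw [HahnSeries.coeff_sub, hrho, hJL]
  rcases lt_or_ge k (m : ℤ) with hkm | hkm
  · -- small `k`
    refine ⟨0, O0.zero_mem, ?_⟩
    rw [ioL_coeff_neg O0 _ _ (by omega), mul_zero, mul_zero, zero_sub, neg_eq_zero]
    rcases le_or_gt k 0 with h0 | h0
    · rw [jL_coeff_nonpos D X1 a k h0, mul_zero]
    · obtain ⟨N, hN⟩ := Int.eq_ofNat_of_zero_le (show 0 ≤ k - 1 by omega)
      have hk1 : k = (N : ℤ) + 1 := by omega
      rw [hk1, jL_coeff_succ, aN_zero hD X1 ha N (by omega), mul_zero]
  · obtain ⟨l, hl⟩ := Int.eq_ofNat_of_zero_le (show 0 ≤ k - m by omega)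
    have hlc : m + l ≤ c * p := by
      have : ((m + l : ℕ) : ℤ) ≤ ((c * p : ℕ) : ℤ) := by push_cast; omega
      exact_mod_cast this
    have hk1 : k = ((m + l - 1 : ℕ) : ℤ) + 1 := by omega
    have hjL : (jL D X1 a).coeff k = (((m - 1).factorial * (m + l - 1).choose l : ℕ) : B) *
        IoQ (map O0.subtype (g * Y ^ l)) := by
      rw [hk1, jL_coeff_succ, aN_eq hD X1 hm ha (m + l - 1) l (by omega)]
      have e1 : (m + l - 1).descFactorial (m - 1) =
          (m - 1).factorial * (m + l - 1).choose l := by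
        rw [Nat.descFactorial_eq_factorial_mul_choose]
        congr 1
        have e2 : m + l - 1 = (m - 1) + l := by omega
        rw [e2, Nat.choose_symm_add]
      have e3 : map O0.subtype (g * Y ^ l) = monomial a 1 * X1 ^ l := by
        rw [RingHom.map_mul, map_pow, hY, hg, map_monomial, map_one O0.subtype]
      rw [e1, e3]
    rw [hl, ioL_coeff_nat, hjL]
    -- bounds
    have hb0 : ∀ l' : ℕ, l' < c * p + 1 → D * (m + l') ≤ p * (D * c + 1) := by
      intro l' hl'
      have h5 : D * (m + l') ≤ D * (n + 1 + c * p) := Nat.mul_le_mul_left D (by omega)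
      have h6 : D * (n + 1 + c * p) = D * (n + 1) + p * (D * c) := by ring
      have h7 : p * (D * c + 1) = p * (D * c) + p := by ring
      omega
    set tl : ℕ → ℕ := fun l => (D * (m + l) + p - 1) / p with htl
    have hpull := F2_pull hF2 (c0 := c) (J' := J') hD hp2 hu hYh hXph hEsh hE1h hE1 hEs hm hmp
      (by omega) tl (fun l' hl' => ⟨RHB.t_pos hp2 (Nat.mul_pos hD (by omega)),
        RHB.t_spec hp2, by
          have := tl_bound hp2 (hb0 l' hl')
          change (D * (m + l') + p - 1) / p + J' < p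
          omega⟩)
      (g := g) (RHB.wt_monomial ha 1)
    obtain ⟨y1, hy1⟩ := mem_It hpull l (by omega)
    have hS := S_eq hF1 hIOB hp hinv (l := l) (m := m) hD hm hJ' (by omega) (by omega)
      (by omega) (by omega) (hb0 l (by omega)) hYh hEsh hEs (g := g) (RHB.wt_monomial ha 1) tl rfl
    obtain ⟨y2, hy2, e2⟩ := hS
    -- the right side
    have hR : (∑ l' ∈ range (c * p + 1), rT D p m J' tl (map Polynomial.C g)
        (C Polynomial.X * map Polynomial.C Y) (map Polynomial.C Es) l').coeff l =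
        rT D p m J' tl g Y Es l := by
      rw [Polynomial.finsetSum_coeff, Finset.sum_eq_single_of_mem l (mem_range.2 (by omega))]
      · rw [rT_pencil hp0 hu, mul_comm, Polynomial.coeff_C_mul, Polynomial.coeff_X_pow,
          if_pos rfl, mul_one]
        have := tl_bound hp2 (hb0 l (by omega))
        change (D * (m + l) + p - 1) / p + J' < p
        omega
      · intro l' hl' hne
        rw [rT_pencil hp0 hu, mul_comm, Polynomial.coeff_C_mul, Polynomial.coeff_X_pow,
          if_neg (Ne.symm hne), mul_zero]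
        have := tl_bound hp2 (hb0 l' (mem_range.1 hl'))
        change (D * (m + l') + p - 1) / p + J' < p
        omega
    rw [Polynomial.coeff_sub, hR] at hy1
    -- the tail of the left side
    have hT : ∃ y3 : O0, (∑ j ∈ range J', lT D p m (c + 1) (map Polynomial.C g) F E1 Xb j).coeff l =
        (∑ j ∈ range J, lT D p m (c + 1) (monomial a 1) F E1 Xb j).coeff l +
          (p : O0) ^ J * y3 := by
      rw [hgC, hJ', Finset.sum_range_add]
      have h8 : ∀ i ∈ range (D * c), ∃ q : Polynomial O0,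
          lT D p m (c + 1) (monomial a 1) F E1 Xb (J + i) = Polynomial.C ((p : O0) ^ J) * q := by
        intro i _
        rw [lT]
        refine ⟨∑ l ∈ range (c + 1), ((1 + (J + i) - 1).choose (J + i) : Polynomial O0) *
          ((-1) ^ J * (-(p : Polynomial O0)) ^ i) *
          ((1 + (J + i) + l - 1).choose l : Polynomial O0) *
          IoA (D * (1 + (J + i) + l)) (psi p (monomial a 1 * F ^ (p * 1 - m) * E1 ^ (J + i)) *
            Xb ^ l), ?_⟩
        rw [Finset.mul_sum]
        refine Finset.sum_congr rfl fun l _ => ?_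
        rw [pow_add, neg_pow (p : Polynomial O0) J, map_pow Polynomial.C, map_natCast]
        ring
      choose! q hq using h8
      refine ⟨(∑ i ∈ range (D * c), q i).coeff l, ?_⟩
      rw [Finset.sum_congr rfl hq, ← Finset.mul_sum, Polynomial.coeff_add,
        Polynomial.coeff_C_mul]
    obtain ⟨y3, hy3⟩ := hT
    have e4 : (∑ j ∈ range J, lT D p m (c + 1) (monomial a 1) F E1 Xb j).coeff l =
        rT D p m J' tl g Y Es l + (p : O0) ^ J * ((p : O0) ^ (D * c) * y1 - y3) := by
      rw [hJ'] at hy1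
      rw [hy3] at hy1
      rw [hJ']
      linear_combination hy1
    have e5 := congrArg (fun z : O0 => (z : B)) e4
    rw [e5, rT]
    refine ⟨((m - 1).factorial : B) * ((m + l - 1).choose l : B) * y2 +
      ((m - 1).factorial : B) * (((p : O0) ^ (D * c) * y1 - y3 : O0) : B),
      O0.add_mem (O0.mul_mem (O0.mul_mem (natCast_mem O0 _) (natCast_mem O0 _)) hy2)
        (O0.mul_mem (natCast_mem O0 _) (Subtype.property _)), ?_⟩
    have e7 : ∀ u v w x : O0, ((u * v + w * x : O0) : B) = (u : B) * v + w * x :=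
      fun u v w x => rfl
    have e8 : (((p : O0) ^ J : O0) : B) = (p : B) ^ J := by push_cast; rfl
    have e9 : (((m + l - 1).choose l : O0) : B) = ((m + l - 1).choose l : B) := by
      push_cast; rfl
    rw [e7, e8, e9, Nat.cast_mul]
    linear_combination ((m - 1).factorial : B) * ((m + l - 1).choose l : B) * e2

end Pool.CUBE
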