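import Pool.Agent.H41.CUBE.JStmts
import Pool.Agent.H22.CUBE.RHB

/-!
# Cube project (MP_47888e_al), block TAME part J, module JF: auxiliary lemmas, part a
-/

set_option autoImplicit false

open Finset MvPolynomial Pool.CM

namespace Pool.CUBE

namespace JF53

/-! ### Frobenius congruences -/

theorem add_frob {R : Type} [CommRing R] {p : ℕ} (hp : p.Prime) {x y x' y' : R}
    (hx : ∃ u, x' = x ^ p + p * u) (hy : ∃ v, y' = y ^ p + p * v) :
    ∃ w, x' + y' = (x + y) ^ p + p * w := by
  obtain ⟨u, rfl⟩ := hx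
  obtain ⟨v, rfl⟩ := hy
  obtain ⟨r, hr⟩ := exists_add_pow_prime_eq hp x y
  exact ⟨u + v - x * y * r, by rw [hr]; ring⟩

theorem poly_frob {R : Type} [CommRing R] {p : ℕ} (hp : p.Prime) (Φ : R →+* R)
    (hΦ : ∀ x, ∃ y, Φ x = x ^ p + p * y) (f : Polynomial R) :
    ∃ E : Polynomial R, Polynomial.expand R p (f.map Φ) = f ^ p + p * E := by
  induction f using Polynomial.induction_on' with
  | add f g hf hg =>
    rw [Polynomial.map_add, map_add]
    exact add_frob hp hf hg
  | monomial m r =>
    obtain ⟨y, hy⟩ := hΦ r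
    refine ⟨Polynomial.monomial (p * m) y, ?_⟩
    rw [Polynomial.map_monomial, Polynomial.expand_monomial, Polynomial.monomial_pow, hy,
      mul_comm m p, map_add]
    congr 1
    rw [← Polynomial.C_eq_natCast, Polynomial.C_mul_monomial]

theorem mv_frob {R : Type} [CommRing R] {n p : ℕ} (hp : p.Prime) (Φ : R →+* R)
    (hΦ : ∀ x, ∃ y, Φ x = x ^ p + p * y) (f : Poly n R) :
    ∃ E : Poly n R, expand p (map Φ f) = f ^ p + p * E := by
  induction f using MvPolynomial.induction_on' with
  | add f g hf hg =>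
    rw [map_add, map_add]
    exact add_frob hp hf hg
  | monomial m r =>
    obtain ⟨y, hy⟩ := hΦ r
    refine ⟨monomial (p • m) y, ?_⟩
    rw [map_monomial, expand_monomial, monomial_pow, hy, map_add]
    congr 1
    rw [← map_natCast (C : R →+* Poly n R), C_mul_monomial]

/-! ### naturality of `JS`, `IoA` -/

section
variable {n : ℕ} {R S : Type} [CommRing R] [CommRing S]

theorem JS_map (f : R →+* S) (h : Poly n R) : JS (map f h) = f (JS h) := by
  induction h using MvPolynomial.induction_on' with
  | add g1 g2 h1 h2 => rw [map_add, map_add, map_add, map_add, h1, h2]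
  | monomial a s =>
    rw [map_monomial, JS, JS, linMon_monomial, linMon_monomial, smul_eq_mul, smul_eq_mul,
      map_mul, map_natCast]

theorem lev_map (f : R →+* S) (N : ℕ) (h : Poly n R) : lev N (map f h) = map f (lev N h) := by
  induction h using MvPolynomial.induction_on' with
  | add g1 g2 h1 h2 => rw [map_add, map_add, map_add, map_add, h1, h2]
  | monomial a s =>
    rw [map_monomial, lev_monomial, lev_monomial]
    split_ifs
    · rw [map_monomial]
    · rw [map_zero]

theorem inverse_map (f : R →+* S) {x : R} (hx : IsUnit x) :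
    Ring.inverse (f x) = f (Ring.inverse x) := by
  have h1 : f x * f (Ring.inverse x) = 1 := by
    rw [← map_mul, Ring.mul_inverse_cancel x hx, map_one]
  have h2 : f x * Ring.inverse (f x) = 1 := Ring.mul_inverse_cancel _ (hx.map f)
  exact (hx.map f).mul_left_cancel (h2.trans h1.symm)

theorem IoA_map (f : R →+* S) (s : ℕ) (hs : IsUnit (((s - 1).factorial : ℕ) : R))
    (h : Poly n R) : IoA s (map f h) = f (IoA s h) := by
  rw [IoA, IoA, lev_map, JS_map, map_mul, ← inverse_map f hs, map_natCast]

theorem IoA_add (s : ℕ) (g h : Poly n R) : IoA s (g + h) = IoA s g + IoA s h := by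
  rw [IoA, map_add, map_add, mul_add]; rfl

theorem IoA_C_mul (s : ℕ) (c : R) (h : Poly n R) : IoA s (C c * h) = c * IoA s h := by
  rw [IoA, ← MvPolynomial.smul_eq_C_mul, map_smul, map_smul, smul_eq_mul, IoA]
  ring

theorem psi_C_mul (p : ℕ) (c : R) (h : Poly n R) : psi p (C c * h) = C c * psi p h := by
  rw [← MvPolynomial.smul_eq_C_mul, map_smul, MvPolynomial.smul_eq_C_mul]

theorem wt_map {N : ℕ} (f : R →+* S) {h : Poly n R} (hh : Wt N h) : Wt N (map f h) := by
  intro a ha
  rw [coeff_map] at ha
  exact hh a fun h0 => ha (by rw [h0, map_zero])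

theorem IoQ_map [Algebra ℚ R] [Algebra ℚ S] (f : R →+* S) (h : Poly n R) :
    IoQ (map f h) = f (IoQ h) := by
  induction h using MvPolynomial.induction_on' with
  | add g1 g2 h1 h2 => rw [map_add, map_add, map_add, map_add, h1, h2]
  | monomial a s =>
    rw [map_monomial, IoQ, IoQ, linMon_monomial, linMon_monomial, smul_eq_mul, smul_eq_mul,
      map_mul]
    congr 1
    exact (RingHom.congr_fun (RingHom.ext_rat (f.comp (algebraMap ℚ R)) (algebraMap ℚ S)) _).symm

theorem facUnit {p s : ℕ} (hu : ∀ m : ℕ, 1 ≤ m → m < p → IsUnit (m : R)) (hs : s < p) :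
    IsUnit ((s.factorial : ℕ) : R) := by
  induction s with
  | zero => simp
  | succ s ih =>
    rw [Nat.factorial_succ, Nat.cast_mul]
    exact (hu (s + 1) (Nat.succ_pos _) hs).mul (ih (by omega))

end

/-! ### the truncated ring -/

section
variable {R : Type} [CommRing R]

/-- the ideal `(c, T ^ (N + 1))` -/
noncomputable def It (R : Type) [CommRing R] (c : R) (N : ℕ) : Ideal (Polynomial R) :=
  Ideal.span {Polynomial.C c, Polynomial.X ^ (N + 1)}

theorem mem_It {c : R} {N : ℕ} {f : Polynomial R} (hf : f ∈ It R c N) (k : ℕ) (hk : k ≤ N) :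
    ∃ y, f.coeff k = c * y := by
  obtain ⟨u, v, rfl⟩ := Ideal.mem_span_pair.1 hf
  refine ⟨u.coeff k, ?_⟩
  rw [Polynomial.coeff_add, Polynomial.coeff_mul_C, Polynomial.coeff_mul_X_pow',
    if_neg (by omega), add_zero, mul_comm]

end

end JF53

end Pool.CUBE
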