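import Pool.Agent.H53.CUBE.JFa

/-!
# Cube project (MP_47888e_al), block TAME part J, module JF: auxiliary lemmas, part b

The functional `J^φ` in low degrees.
-/

set_option autoImplicit false

open Finset MvPolynomial Pool.CM

namespace Pool.CUBE

namespace JF53

section
variable {n : ℕ} {B : Type} [CommRing B] (O0 : Subring B)

/-- polynomials over `O0` as Laurent series over `B` -/
noncomputable def ioL : Polynomial O0 →+* LaurentSeries B :=
  (HahnSeries.ofPowerSeries ℤ B).comp
    ((Polynomial.coeToPowerSeries.ringHom (R := B)).comp (Polynomial.mapRingHom O0.subtype))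

theorem ioL_coeff_nat (f : Polynomial O0) (k : ℕ) :
    (ioL O0 f).coeff (k : ℤ) = (f.coeff k : B) := by
  change (HahnSeries.ofPowerSeries ℤ B ((f.map O0.subtype : Polynomial B) :
    PowerSeries B)).coeff (k : ℤ) = _
  rw [HahnSeries.ofPowerSeries_apply_coeff, Polynomial.coeff_coe, Polynomial.coeff_map]
  rfl

theorem ioL_coeff_neg (f : Polynomial O0) (k : ℤ) (hk : k < 0) : (ioL O0 f).coeff k = 0 := by
  change (HahnSeries.ofPowerSeries ℤ B ((f.map O0.subtype : Polynomial B) :
    PowerSeries B)).coeff k = _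
  rw [HahnSeries.ofPowerSeries_apply]
  refine HahnSeries.embDomain_of_notMem_range ?_
  rintro ⟨n, hn⟩
  have : (n : ℤ) = k := hn
  omega

theorem ioL_C (r : O0) : ioL O0 (Polynomial.C r) = HahnSeries.C (r : B) := by
  ext k
  rcases lt_or_ge k 0 with hk | hk
  · rw [ioL_coeff_neg O0 _ k hk, HahnSeries.C_apply, HahnSeries.coeff_single_of_ne (by omega)]
  · obtain ⟨m, rfl⟩ := Int.eq_ofNat_of_zero_le hk
    rw [ioL_coeff_nat, Polynomial.coeff_C, HahnSeries.C_apply, HahnSeries.coeff_single]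
    by_cases hm : m = 0
    · subst hm
      rw [if_pos rfl, if_pos Nat.cast_zero]
    · rw [if_neg hm, if_neg (by exact_mod_cast hm)]
      rfl

theorem ioL_X : ioL O0 Polynomial.X = HahnSeries.single 1 1 := by
  ext k
  rcases lt_or_ge k 0 with hk | hk
  · rw [ioL_coeff_neg O0 _ k hk, HahnSeries.coeff_single_of_ne (by omega)]
  · obtain ⟨m, rfl⟩ := Int.eq_ofNat_of_zero_le hk
    rw [ioL_coeff_nat, Polynomial.coeff_X, HahnSeries.coeff_single]
    by_cases hm : 1 = m
    · subst hm
      rw [if_pos rfl, if_pos Nat.cast_one]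
      rfl
    · rw [if_neg hm, if_neg (fun h => hm (by exact_mod_cast h.symm))]
      rfl

end

section
variable {n : ℕ} {B : Type} [CommRing B] [Algebra ℚ B] {O0 : Subring B}

theorem IoQ_IoA (hIOB : IOBStmt) {s : ℕ} (hs : IsUnit (((s - 1).factorial : ℕ) : O0))
    {h : Poly n O0} (hh : Wt s h) : IoQ (map O0.subtype h) = ((IoA s h : O0) : B) := by
  have h1 := (hIOB.1 B n).2.2 s (map O0.subtype h) (wt_map _ hh)
  rw [JS_map] at h1
  have h2 : ((IoA s h : O0) : B) = O0.subtype (Ring.inverse (((s - 1).factorial : ℕ) : O0)) *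
      O0.subtype (JS h) := by
    rw [IoA, RHB.lev_of_wt hh, ← map_mul]
    rfl
  have h3 : O0.subtype (Ring.inverse (((s - 1).factorial : ℕ) : O0)) *
      (((s - 1).factorial : ℕ) : B) = 1 := by
    have h4 := congrArg O0.subtype (Ring.inverse_mul_cancel _ hs)
    rw [map_mul, map_natCast, map_one] at h4
    exact h4
  rw [h2, h1, ← mul_assoc, h3, one_mul]

theorem aN_eq {D : ℕ} (hD : 0 < D) (X1 : Poly n B) {b : Fin (n + 1) →₀ ℕ} {L : ℕ} (hL : 1 ≤ L)
    (hb : b.degree + (n + 1) = D * L) (N l : ℕ) (h : N + 1 = L + l) :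
    aN D X1 N (monomial b 1) = ((N.descFactorial (L - 1) : ℕ) : B) *
      IoQ (monomial b 1 * X1 ^ l) := by
  have h0 : (b.degree + (n + 1)) / D = L := by rw [hb, Nat.mul_div_cancel_left _ hD]
  rw [aN, linMon_monomial, one_smul, h0, if_pos ⟨⟨L, hb⟩, by omega⟩]
  have e1 : N + 1 - L = l := by omega
  rw [e1]
  congr 1
  have e2 : (l.factorial : ℚ) * (N.descFactorial (L - 1) : ℚ) = N.factorial := by
    have := Nat.factorial_mul_descFactorial (n := N) (k := L - 1) (by omega)
    have e3 : N - (L - 1) = l := by omega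
    rw [e3] at this
    exact_mod_cast this
  rw [← e2, mul_div_cancel_left₀ _ (by positivity), map_natCast]

theorem aN_zero {D : ℕ} (hD : 0 < D) (X1 : Poly n B) {b : Fin (n + 1) →₀ ℕ} {L : ℕ}
    (hb : b.degree + (n + 1) = D * L) (N : ℕ) (h : N + 1 < L) :
    aN D X1 N (monomial b 1) = 0 := by
  have h0 : (b.degree + (n + 1)) / D = L := by rw [hb, Nat.mul_div_cancel_left _ hD]
  rw [aN, linMon_monomial, one_smul, h0, if_neg (fun h' => by have := h'.2; omega)]

theorem jL_coeff_succ (D : ℕ) (X1 : Poly n B) (b : Fin (n + 1) →₀ ℕ) (N : ℕ) :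
    (jL D X1 b).coeff ((N : ℤ) + 1) = aN D X1 N (monomial b 1) := by
  have e : ((N : ℤ) + 1) = ((N + 1 : ℕ) : ℤ) := by push_cast; rfl
  rw [jL, e, HahnSeries.ofPowerSeries_apply_coeff, PowerSeries.coeff_mk, if_neg (by omega)]
  rfl

theorem jL_coeff_nonpos (D : ℕ) (X1 : Poly n B) (b : Fin (n + 1) →₀ ℕ) (k : ℤ) (hk : k ≤ 0) :
    (jL D X1 b).coeff k = 0 := by
  rcases lt_or_eq_of_le hk with hk | rfl
  · rw [jL, HahnSeries.ofPowerSeries_apply]
    refine HahnSeries.embDomain_of_notMem_range ?_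
    rintro ⟨n, hn⟩
    have : (n : ℤ) = k := hn
    omega
  · have e : (0 : ℤ) = ((0 : ℕ) : ℤ) := rfl
    rw [jL, e, HahnSeries.ofPowerSeries_apply_coeff, PowerSeries.coeff_mk, if_pos rfl]

/-- the coefficient of `J^φ` on `z ^ b`, `z ^ b` of level `L`, at `T ^ (p (L + l))` -/
noncomputable def cj {R : Type} [CommRing R] (D L l : ℕ) (Xp b : Poly n R) : R :=
  (((L + l - 1).descFactorial (L - 1) : ℕ) : R) * IoA (D * (L + l)) (b * Xp ^ l)

theorem phi_jL (hIOB : IOBStmt) {D : ℕ} (hD : 0 < D) {X1 : Poly n B} {φ : B →+* B} {p : ℕ}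
    (hp : 0 < p) {Xp : Poly n O0} (hXp : map O0.subtype Xp = map φ X1)
    (hXh : Xp.IsHomogeneous D) (hu : ∀ m : ℕ, 1 ≤ m → m < p → IsUnit (m : O0))
    {b : Fin (n + 1) →₀ ℕ} {L : ℕ} (hL : 1 ≤ L) (hb : b.degree + (n + 1) = D * L) {L' : ℕ}
    (hLp : D * (L + L') ≤ p) (e : ℤ) (he : e < p * ((L : ℤ) + L')) :
    (FUN.phiL φ p hp (jL D X1 b)).coeff e =
      (∑ l ∈ range L', HahnSeries.single ((p : ℤ) * ((L : ℤ) + l))
        ((cj D L l Xp (monomial b 1) : O0) : B)).coeff e := by
  rw [HahnSeries.coeff_sum]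
  have hp0 : (0 : ℤ) < p := by exact_mod_cast hp
  by_cases hd : (p : ℤ) ∣ e
  · obtain ⟨k, rfl⟩ := hd
    have hk : k < (L : ℤ) + L' := lt_of_mul_lt_mul_left he hp0.le
    rw [FUN.phiL_coeff_mul]
    have hs : ∀ l ∈ range L', (HahnSeries.single ((p : ℤ) * ((L : ℤ) + l))
        ((cj D L l Xp (monomial b 1) : O0) : B)).coeff ((p : ℤ) * k) =
        if k = (L : ℤ) + l then ((cj D L l Xp (monomial b 1) : O0) : B) else 0 := by
      intro l _
      rw [HahnSeries.coeff_single]
      have : (p : ℤ) * k = (p : ℤ) * ((L : ℤ) + l) ↔ k = (L : ℤ) + l :=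
        ⟨fun h => mul_left_cancel₀ hp0.ne' h, fun h => by rw [h]⟩
      by_cases h : k = (L : ℤ) + l
      · rw [if_pos h, if_pos (this.2 h)]
      · rw [if_neg h, if_neg (fun h' => h (this.1 h'))]
    rw [Finset.sum_congr rfl hs]
    rcases lt_or_ge k (L : ℤ) with h1 | h1
    · rw [Finset.sum_eq_zero fun l _ => if_neg (by omega)]
      rcases le_or_gt k 0 with h2 | h2
      · rw [jL_coeff_nonpos D X1 b k h2, map_zero]
      · obtain ⟨N, hN⟩ := Int.eq_ofNat_of_zero_le (show 0 ≤ k - 1 by omega)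
        have hk1 : k = (N : ℤ) + 1 := by omega
        rw [hk1, jL_coeff_succ, aN_zero hD X1 hb N (by omega), map_zero]
    · obtain ⟨l, hl⟩ := Int.eq_ofNat_of_zero_le (show 0 ≤ k - L by omega)
      have hkl : k = (L : ℤ) + l := by omega
      have hlL : l < L' := by omega
      rw [Finset.sum_eq_single_of_mem l (mem_range.2 hlL), if_pos hkl]
      · have hk1 : k = ((L + l - 1 : ℕ) : ℤ) + 1 := by omega
        rw [hk1, jL_coeff_succ, aN_eq hD X1 hL hb (L + l - 1) l (by omega), map_mul, map_natCast,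
          ← IoQ_map, RingHom.map_mul, map_pow, map_monomial, map_one φ, ← hXp]
        have e1 : (monomial b 1 * (map O0.subtype Xp) ^ l : Poly n B) =
            map O0.subtype (monomial b 1 * Xp ^ l) := by
          rw [RingHom.map_mul, map_pow, map_monomial, map_one O0.subtype]
        have hw : Wt (D * (L + l)) (monomial b 1 * Xp ^ l : Poly n O0) := by
          have := RHB.wt_mul (RHB.wt_monomial hb (1 : O0)) (hXh.pow l)
          rwa [← mul_add] at this
        have hs' : IsUnit (((D * (L + l) - 1).factorial : ℕ) : O0) := by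
          refine facUnit hu ?_
          have h3 : D * (L + l) ≤ D * (L + L') := Nat.mul_le_mul_left D (by omega)
          have h4 : 0 < D * (L + l) := Nat.mul_pos hD (by omega)
          omega
        rw [e1, IoQ_IoA hIOB hs' hw, cj]
        push_cast
        rfl
      · intro l' _ hl'
        rw [if_neg]
        intro h
        exact hl' (by omega)
  · rw [FUN.phiL_coeff_not φ p hp _ e hd]
    symm
    refine Finset.sum_eq_zero fun l _ => ?_
    rw [HahnSeries.coeff_single, if_neg]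
    rintro rfl
    exact hd ⟨_, rfl⟩

end

end JF53

end Pool.CUBE
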