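import Pool.Agent.H53.CUBE.JFb

/-!
# Cube project (MP_47888e_al), block TAME part J, module JF: auxiliary lemmas, part c
-/

set_option autoImplicit false

open Finset MvPolynomial Pool.CM

namespace Pool.CUBE

namespace JF53

section
variable {R : Type} [CommRing R]

theorem coeff_mul_zero {f g : LaurentSeries R} (hf : ∀ k < 0, f.coeff k = 0) {N : ℤ}
    (hg : ∀ k < N, g.coeff k = 0) (e : ℤ) (he : e < N) : (f * g).coeff e = 0 := by
  rw [coeff_mul_IccR hf hg, Finset.Icc_eq_empty (by omega), Finset.sum_empty]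

theorem wt_ind {n : ℕ} {A : Type} [CommRing A] {N : ℕ} {q : Poly n A → Prop} (h0 : q 0)
    (hadd : ∀ g h, q g → q h → q (g + h))
    (hm : ∀ a r, a.degree + (n + 1) = N → q (monomial a r)) (h : Poly n A) (hh : Wt N h) :
    q h := by
  classical
  rw [h.as_sum]
  refine Finset.sum_induction _ q hadd h0 fun a ha => hm a _ (hh a ?_)
  exact mem_support_iff.1 ha

variable {n : ℕ}

theorem cj_add (D L l : ℕ) (Xp g h : Poly n R) :
    cj D L l Xp (g + h) = cj D L l Xp g + cj D L l Xp h := by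
  rw [cj, add_mul, IoA_add, mul_add]
  rfl

theorem cj_zero (D L l : ℕ) (Xp : Poly n R) : cj D L l Xp 0 = 0 := by
  have h := cj_add D L l Xp 0 0
  rw [add_zero] at h
  exact left_eq_add.1 h

theorem cj_C_mul (D L l : ℕ) (c : R) (Xp h : Poly n R) :
    cj D L l Xp (C c * h) = c * cj D L l Xp h := by
  rw [cj, mul_assoc (C c), IoA_C_mul, cj]
  ring

theorem cj_scale (D L l : ℕ) (c : R) (Xp h : Poly n R) :
    cj D L l (C c * Xp) h = c ^ l * cj D L l Xp h := by
  have e : h * (C c * Xp) ^ l = C (c ^ l) * (h * Xp ^ l) := by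
    rw [mul_pow, map_pow]
    ring
  rw [cj, e, IoA_C_mul, cj]
  ring

theorem cj_map {S : Type} [CommRing S] (f : R →+* S) {D L l : ℕ}
    (hs : IsUnit (((D * (L + l) - 1).factorial : ℕ) : R)) (Xp h : Poly n R) :
    cj D L l (map f Xp) (map f h) = f (cj D L l Xp h) := by
  rw [cj, cj, map_mul, map_natCast, ← IoA_map f _ hs, RingHom.map_mul, map_pow]

end

section
variable {n : ℕ} {B : Type} [CommRing B] [Algebra ℚ B] {O0 : Subring B}

theorem JLp_map (hIOB : IOBStmt) {D : ℕ} (hD : 0 < D) {X1 : Poly n B} {φ : B →+* B} {p : ℕ}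
    (hp : 0 < p) {Xp : Poly n O0} (hXp : map O0.subtype Xp = map φ X1)
    (hXh : Xp.IsHomogeneous D) (hu : ∀ m : ℕ, 1 ≤ m → m < p → IsUnit (m : O0))
    {L : ℕ} (hL : 1 ≤ L) {L' : ℕ} (hLp : D * (L + L') ≤ p) (e : ℤ)
    (he : e < p * ((L : ℤ) + L')) (h : Poly n (Polynomial O0)) (hh : Wt (D * L) h) :
    (JLp D X1 φ p hp (map (ioL O0) h)).coeff e =
      (∑ l ∈ range L', HahnSeries.single ((p : ℤ) * ((L : ℤ) + l)) (1 : B) *
        ioL O0 (cj D L l (map Polynomial.C Xp) h)).coeff e := by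
  refine wt_ind (q := fun h => (JLp D X1 φ p hp (map (ioL O0) h)).coeff e =
      (∑ l ∈ range L', HahnSeries.single ((p : ℤ) * ((L : ℤ) + l)) (1 : B) *
        ioL O0 (cj D L l (map Polynomial.C Xp) h)).coeff e) ?_ ?_ ?_ h hh
  · rw [map_zero, map_zero, HahnSeries.coeff_zero, Finset.sum_eq_zero fun l _ => ?_,
      HahnSeries.coeff_zero]
    rw [cj_zero, map_zero, mul_zero]
  · intro g h hg hh
    rw [map_add, map_add, HahnSeries.coeff_add, hg, hh, ← HahnSeries.coeff_add,
      ← Finset.sum_add_distrib]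
    congr 1
    refine Finset.sum_congr rfl fun l _ => ?_
    rw [cj_add, map_add (ioL O0)]
    ring
  · intro b r hb
    rw [map_monomial, JLp, linMon_monomial, smul_eq_mul]
    have e1 : ∀ l ∈ range L', HahnSeries.single ((p : ℤ) * ((L : ℤ) + l)) (1 : B) *
        ioL O0 (cj D L l (map Polynomial.C Xp) (monomial b r)) = ioL O0 r *
          HahnSeries.single ((p : ℤ) * ((L : ℤ) + l))
            ((cj D L l Xp (monomial b 1) : O0) : B) := by
      intro l hl
      have e2 : (monomial b r : Poly n (Polynomial O0)) =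
          C r * map Polynomial.C (monomial b 1) := by
        rw [map_monomial, Polynomial.C_1, C_mul_monomial, mul_one]
      have hs' : IsUnit (((D * (L + l) - 1).factorial : ℕ) : O0) := by
        refine facUnit hu ?_
        have h3 : D * (L + l) ≤ D * (L + L') :=
          Nat.mul_le_mul_left D (by have := mem_range.1 hl; omega)
        have h4 : 0 < D * (L + l) := Nat.mul_pos hD (by omega)
        omega
      rw [e2, cj_C_mul, cj_map Polynomial.C hs', map_mul, ioL_C, mul_left_comm,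
        HahnSeries.C_apply, HahnSeries.single_mul_single, one_mul, add_zero]
    rw [Finset.sum_congr rfl e1, ← Finset.mul_sum, ← sub_eq_zero, ← HahnSeries.coeff_sub,
      ← mul_sub]
    refine coeff_mul_zero (ioL_coeff_neg O0 r) (N := (p : ℤ) * ((L : ℤ) + L')) ?_ e he
    intro k hk
    rw [HahnSeries.coeff_sub, sub_eq_zero]
    exact phi_jL hIOB hD hp hXp hXh hu hL hb hLp k hk

theorem JLp_term (hIOB : IOBStmt) {D : ℕ} (hD : 0 < D) {X1 : Poly n B} {φ : B →+* B} {p : ℕ}
    (hp : 0 < p) {Xp : Poly n O0} (hXp : map O0.subtype Xp = map φ X1)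
    (hXh : Xp.IsHomogeneous D) (hu : ∀ m : ℕ, 1 ≤ m → m < p → IsUnit (m : O0))
    {j : ℕ} {L' : ℕ} (hLp : D * (1 + j + L') ≤ p) (k : ℤ) (m : ℕ)
    (hk : k - m < p * (L' : ℤ)) (H : Poly n (Polynomial O0)) (hH : Wt (D * (1 + j)) H) :
    (JLp D X1 φ p hp (HahnSeries.single (-((p : ℤ) * (1 + j) - m)) (1 : B) •
      map (ioL O0) H)).coeff k =
      (ioL O0 (∑ l ∈ range L', cj D (1 + j) l
        (C (Polynomial.X ^ p) * map Polynomial.C Xp) H)).coeff (k - m) := by
  rw [map_smul, smul_eq_mul, HahnSeries.coeff_single_mul, one_mul,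
    JLp_map hIOB hD hp hXp hXh hu (L := 1 + j) (by omega) hLp _ (by
      push_cast
      have : (p : ℤ) * (1 + j + L') = p * (1 + j) + p * L' := by ring
      rw [this]
      linarith) H hH, HahnSeries.coeff_sum, map_sum, HahnSeries.coeff_sum]
  refine Finset.sum_congr rfl fun l _ => ?_
  have e1 : ioL O0 ((Polynomial.X ^ p) ^ l) = HahnSeries.single ((p : ℤ) * l) (1 : B) := by
    rw [← pow_mul, map_pow, ioL_X, HahnSeries.single_pow, one_pow]
    congr 1
    rw [nsmul_eq_mul, mul_one]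
    push_cast
    rfl
  rw [cj_scale, map_mul, e1, HahnSeries.coeff_single_mul, HahnSeries.coeff_single_mul, one_mul,
    one_mul]
  congr 1
  push_cast
  ring

end

end JF53

end Pool.CUBE
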