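import Pool.Agent.H53.CUBE.JFc

/-!
# Cube project (MP_47888e_al), block TAME part J, module JF: auxiliary lemmas, part d
-/

set_option autoImplicit false
set_option linter.unusedSectionVars false

open Finset MvPolynomial Pool.CM

namespace Pool.CUBE

namespace JF53

/-! ### torsion -/

section
variable {B : Type} [CommRing B] [Algebra ℚ B]

theorem cancelB {k : ℕ} (hk : k ≠ 0) {x y : B} (h : (k : B) * x = (k : B) * y) : x = y := by
  have h1 : algebraMap ℚ B ((k : ℚ)⁻¹) * (k : B) = 1 := by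
    rw [← map_natCast (algebraMap ℚ B), ← map_mul, inv_mul_cancel₀ (by exact_mod_cast hk),
      map_one]
  calc x = algebraMap ℚ B ((k : ℚ)⁻¹) * ((k : B) * x) := by rw [← mul_assoc, h1, one_mul]
    _ = algebraMap ℚ B ((k : ℚ)⁻¹) * ((k : B) * y) := by rw [h]
    _ = y := by rw [← mul_assoc, h1, one_mul]

theorem coeff_natCast_mul (k : ℕ) (f : LaurentSeries B) (e : ℤ) :
    ((k : LaurentSeries B) * f).coeff e = (k : B) * f.coeff e := by
  have h2 : (k : LaurentSeries B) = HahnSeries.C (k : B) := by rw [map_natCast]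
  rw [h2, HahnSeries.C_apply, HahnSeries.coeff_single_zero_mul]

theorem cancelL {k : ℕ} (hk : k ≠ 0) {x y : LaurentSeries B}
    (h : (k : LaurentSeries B) * x = (k : LaurentSeries B) * y) : x = y := by
  ext e
  have h1 := congrArg (fun f : LaurentSeries B => f.coeff e) h
  simp only [coeff_natCast_mul] at h1
  exact cancelB hk h1

theorem cancelO {O0 : Subring B} {k : ℕ} (hk : k ≠ 0) {x y : O0}
    (h : (k : O0) * x = (k : O0) * y) : x = y := by
  apply Subtype.ext
  refine cancelB hk ?_
  have h1 := congrArg (fun z : O0 => (z : B)) h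
  simpa using h1

theorem cancelPoly {R : Type} [CommRing R] {k : ℕ}
    (hR : ∀ x y : R, (k : R) * x = (k : R) * y → x = y) {x y : Polynomial R}
    (h : (k : Polynomial R) * x = (k : Polynomial R) * y) : x = y := by
  ext i
  refine hR _ _ ?_
  have h1 := congrArg (fun z : Polynomial R => z.coeff i) h
  simp only [← Polynomial.C_eq_natCast, Polynomial.coeff_C_mul] at h1
  exact h1

theorem cancelMv {R : Type} [CommRing R] {n k : ℕ}
    (hR : ∀ x y : R, (k : R) * x = (k : R) * y → x = y) {x y : Poly n R}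
    (h : (k : Poly n R) * x = (k : Poly n R) * y) : x = y := by
  ext a
  refine hR _ _ ?_
  have h1 := congrArg (fun z : Poly n R => coeff a z) h
  simp only [← map_natCast (C : R →+* Poly n R), coeff_C_mul] at h1
  exact h1

/-- if `k x` is homogeneous, then `x` is homogeneous -/
theorem hom_of_mul {R : Type} [CommRing R] {n k d : ℕ}
    (hR : ∀ x y : R, (k : R) * x = (k : R) * y → x = y) {x : Poly n R}
    (h : ((k : Poly n R) * x).IsHomogeneous d) : x.IsHomogeneous d := by
  intro a ha
  refine h (d := a) ?_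
  rw [← map_natCast (C : R →+* Poly n R), coeff_C_mul]
  intro h0
  exact ha (hR _ _ (by rw [h0, mul_zero]))

end

/-! ### the pencil -/

section
variable {n : ℕ}

theorem map_Sg {R S : Type} [CommRing R] [CommRing S] (f : R →+* S) :
    map f (Sg n R) = Sg n S := by
  rw [Sg, Sg, map_sum]
  exact Finset.sum_congr rfl fun i _ => map_X f i

theorem Sg_hom (R : Type) [CommRing R] : (Sg n R).IsHomogeneous 1 :=
  IsHomogeneous.sum _ _ _ fun i _ => isHomogeneous_X R i

theorem C_mul_hom {R : Type} [CommRing R] {D : ℕ} {P : Poly n R} (hP : P.IsHomogeneous D)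
    (c : R) : (C c * P).IsHomogeneous D := by
  have := (isHomogeneous_C (Fin (n + 1)) c).mul hP
  rwa [zero_add] at this

theorem sub_hom {R : Type} [CommRing R] {D : ℕ} {P Q : Poly n R} (hP : P.IsHomogeneous D)
    (hQ : Q.IsHomogeneous D) : (P - Q).IsHomogeneous D := by
  intro a ha
  rw [coeff_sub] at ha
  by_cases h : coeff a P = 0
  · rw [h, zero_sub, neg_ne_zero] at ha
    exact hQ ha
  · exact hP h

/-- `Σ^D - c X₁` -/
noncomputable def Fx {R : Type} [CommRing R] (D : ℕ) (c : R) (X1 : Poly n R) : Poly n R :=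
  Sg n R ^ D - C c * X1

theorem Fx_hom {R : Type} [CommRing R] {D : ℕ} (c : R) {X1 : Poly n R}
    (h : X1.IsHomogeneous D) : (Fx D c X1).IsHomogeneous D := by
  have h1 := (Sg_hom (n := n) R).pow D
  rw [one_mul] at h1
  exact sub_hom h1 (C_mul_hom h c)

theorem Fx_map {R S : Type} [CommRing R] [CommRing S] (f : R →+* S) (D : ℕ) (c : R)
    (X1 : Poly n R) : map f (Fx D c X1) = Fx D (f c) (map f X1) := by
  rw [Fx, Fx, map_sub, map_pow, map_Sg, RingHom.map_mul, map_C]

variable {B : Type} [CommRing B] {O0 : Subring B}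

theorem map_ioL_C (Y : Poly n O0) :
    map (ioL O0) (map Polynomial.C Y) = map HahnSeries.C (map O0.subtype Y) := by
  rw [MvPolynomial.map_map, MvPolynomial.map_map]
  have h : (ioL O0).comp Polynomial.C = (HahnSeries.C : B →+* LaurentSeries B).comp O0.subtype :=
    RingHom.ext fun r => ioL_C O0 r
  rw [h]

theorem single_C_mul (c : ℤ) (D : ℕ) (Y : Poly n (LaurentSeries B)) :
    (C (HahnSeries.single (-c) (1 : B)) : Poly n (LaurentSeries B)) *
      Fx D (HahnSeries.single c (1 : B)) Y =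
      C (HahnSeries.single (-c) (1 : B)) * Sg n (LaurentSeries B) ^ D - Y := by
  have h : (HahnSeries.single (-c) (1 : B)) * HahnSeries.single c (1 : B) = 1 := by
    rw [HahnSeries.single_mul_single, neg_add_cancel, mul_one]
    rfl
  rw [Fx, mul_sub, ← mul_assoc, ← C_mul, h, C_1, one_mul]

theorem PL_eq (D : ℕ) {X1 : Poly n B} {Y : Poly n O0} (hY : map O0.subtype Y = X1) :
    PL D X1 = C (HahnSeries.single (-1) (1 : B)) *
      map (ioL O0) (Fx D Polynomial.X (map Polynomial.C Y)) := by
  rw [Fx_map, ioL_X, map_ioL_C, hY, single_C_mul, PL]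

theorem phiL_single (φ : B →+* B) {p : ℕ} (hp : 0 < p) :
    FUN.phiL φ p hp (HahnSeries.single (-1) (1 : B)) = HahnSeries.single (-(p : ℤ)) 1 := by
  ext k
  by_cases hk : (p : ℤ) ∣ k
  · obtain ⟨b, rfl⟩ := hk
    rw [FUN.phiL_coeff_mul, HahnSeries.coeff_single, HahnSeries.coeff_single]
    have : (p : ℤ) * b = -(p : ℤ) ↔ b = -1 := by
      constructor
      · intro h
        have h1 : (p : ℤ) * b = p * (-1) := by rw [h]; ring
        exact mul_left_cancel₀ (by exact_mod_cast hp.ne') h1
      · rintro rfl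
        ring
    by_cases hb : b = -1
    · rw [if_pos hb, if_pos (this.2 hb), map_one]
    · rw [if_neg hb, if_neg (fun h => hb (this.1 h)), map_zero]
  · rw [FUN.phiL_coeff_not φ p hp _ k hk, HahnSeries.coeff_single, if_neg]
    rintro rfl
    exact hk ⟨-1, by ring⟩

theorem ioL_X_pow (p : ℕ) :
    ioL O0 (Polynomial.X ^ p) = HahnSeries.single (p : ℤ) (1 : B) := by
  rw [map_pow, ioL_X, HahnSeries.single_pow, one_pow]
  congr 1
  rw [nsmul_eq_mul, mul_one]

theorem PLp_eq (D : ℕ) {X1 : Poly n B} {φ : B →+* B} {p : ℕ} (hp : 0 < p) {Xp : Poly n O0}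
    (hXp : map O0.subtype Xp = map φ X1) :
    map (FUN.phiL φ p hp) (PL D X1) = C (HahnSeries.single (-(p : ℤ)) (1 : B)) *
      map (ioL O0) (Fx D (Polynomial.X ^ p) (map Polynomial.C Xp)) := by
  have h1 : map (FUN.phiL φ p hp) (map (HahnSeries.C : B →+* LaurentSeries B) X1) =
      map HahnSeries.C (map φ X1) := by
    rw [MvPolynomial.map_map, MvPolynomial.map_map]
    have h : (FUN.phiL φ p hp).comp (HahnSeries.C : B →+* LaurentSeries B) =
        (HahnSeries.C : B →+* LaurentSeries B).comp φ :=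
      RingHom.ext fun r => FUN.phiL_C φ p hp r
    rw [h]
  rw [Fx_map, ioL_X_pow, map_ioL_C, hXp, single_C_mul, PL, map_sub, RingHom.map_mul, map_C,
    phiL_single, map_pow, map_Sg, h1]

theorem EL_eq [Algebra ℚ B] {D p : ℕ} {X1 : Poly n B} {φ : B →+* B} (hp : 0 < p)
    {Y Xp : Poly n O0} (hY : map O0.subtype Y = X1) (hXp : map O0.subtype Xp = map φ X1)
    {E1 : Poly n (Polynomial O0)}
    (hE1 : Fx D Polynomial.X (map Polynomial.C Y) ^ p =
      expand p (Fx D (Polynomial.X ^ p) (map Polynomial.C Xp)) + (p : Poly n (Polynomial O0)) * E1)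
    {EL : Poly n (LaurentSeries B)}
    (hEL : PL D X1 ^ p = expand p (map (FUN.phiL φ p hp) (PL D X1)) +
      (p : Poly n (LaurentSeries B)) * EL) :
    EL = C (HahnSeries.single (-(p : ℤ)) (1 : B)) * map (ioL O0) E1 := by
  refine cancelMv (k := p) (fun x y h => cancelL hp.ne' h) ?_
  have h1 : (p : Poly n (LaurentSeries B)) * EL =
      PL D X1 ^ p - expand p (map (FUN.phiL φ p hp) (PL D X1)) := by rw [hEL]; ring
  have h2 : (HahnSeries.single (-1) (1 : B)) ^ p = HahnSeries.single (-(p : ℤ)) 1 := by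
    rw [HahnSeries.single_pow, one_pow]
    congr 1
    rw [nsmul_eq_mul]
    ring
  rw [h1, PLp_eq D hp hXp, PL_eq D hY, mul_pow, ← C_pow, h2, map_mul (expand p), expand_C,
    ← map_expand, ← map_pow, ← mul_sub, ← map_sub, hE1,
    show ∀ u v : Poly n (Polynomial O0), u + v - u = v from fun u v => by ring,
    RingHom.map_mul, map_natCast]
  ring

theorem psi_PL {p m : ℕ} (hm : m ≤ p) {PP EL : Poly n (LaurentSeries B)}
    {F E1 : Poly n (Polynomial O0)}
    (hPP : PP = C (HahnSeries.single (-1) (1 : B)) * map (ioL O0) F)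
    (hEL : EL = C (HahnSeries.single (-(p : ℤ)) (1 : B)) * map (ioL O0) E1)
    (a : Fin (n + 1) →₀ ℕ) (j : ℕ) :
    psi p (monomial a 1 * PP ^ (p * 1 - m) * EL ^ j) =
      HahnSeries.single (-((p : ℤ) * (1 + j) - m)) (1 : B) •
        map (ioL O0) (psi p (monomial a 1 * F ^ (p * 1 - m) * E1 ^ j)) := by
  have h2 : (HahnSeries.single (-1) (1 : B)) ^ (p * 1 - m) *
      (HahnSeries.single (-(p : ℤ)) (1 : B)) ^ j =
      HahnSeries.single (-((p : ℤ) * (1 + j) - m)) 1 := by
    rw [HahnSeries.single_pow, HahnSeries.single_pow, HahnSeries.single_mul_single, one_pow,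
      one_pow, one_mul]
    congr 1
    rw [nsmul_eq_mul, nsmul_eq_mul, mul_one, Nat.cast_sub hm]
    ring
  have h3 : (monomial a 1 * PP ^ (p * 1 - m) * EL ^ j : Poly n (LaurentSeries B)) =
      HahnSeries.single (-((p : ℤ) * (1 + j) - m)) (1 : B) •
        map (ioL O0) (monomial a 1 * F ^ (p * 1 - m) * E1 ^ j) := by
    have h4 : map (ioL O0) (monomial a 1 * F ^ (p * 1 - m) * E1 ^ j) =
        monomial a 1 * map (ioL O0) F ^ (p * 1 - m) * map (ioL O0) E1 ^ j := by
      rw [RingHom.map_mul, RingHom.map_mul, map_pow, map_pow, map_monomial,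
        map_one (ioL O0)]
    rw [h4, smul_eq_C_mul, ← h2, hPP, hEL, mul_pow, mul_pow, C_mul, C_pow, C_pow]
    ring
  rw [h3, map_smul, ← RHB.map_psi']

end

end JF53

end Pool.CUBE
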