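import Pool.Agent.H53.CUBE.JFd

/-!
# Cube project (MP_47888e_al), block TAME part J, module JF: auxiliary lemmas, part e

The module F2 over the truncated polynomial ring.
-/

set_option autoImplicit false
set_option linter.unusedSectionVars false

open Finset MvPolynomial Pool.CM

namespace Pool.CUBE

namespace JF53

section
variable {n : ℕ} {R S : Type} [CommRing R] [CommRing S]

/-- a term of the left side -/
noncomputable def lT {R : Type} [CommRing R] (D p m L' : ℕ) (g F E Xb : Poly n R) (j : ℕ) : R :=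
  ∑ l ∈ range L', ((1 + j - 1).choose j : R) * (-(p : R)) ^ j *
    ((1 + j + l - 1).choose l : R) *
    IoA (D * (1 + j + l)) (psi p (g * F ^ (p * 1 - m) * E ^ j) * Xb ^ l)

/-- a term of the right side -/
noncomputable def rT {R : Type} [CommRing R] (D p m J' : ℕ) (tl : ℕ → ℕ) (g Xa Es : Poly n R)
    (l : ℕ) : R :=
  ((m + l - 1).choose l : R) * ∑ j ∈ range J',
    ((tl l + j - 1).choose j : R) * (-(p : R)) ^ j *
    IoA (tl l + j) (psi p (g * Xa ^ l * Sg n R ^ (p * tl l - D * (m + l)) * Es ^ j))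

theorem lT_map (f : R →+* S) {D p m L' j : ℕ} (hp : 0 < p)
    (hu : ∀ m : ℕ, 1 ≤ m → m < p → IsUnit (m : R)) (h : D * (1 + j + L') < p)
    (g F E Xb : Poly n R) :
    lT D p m L' (map f g) (map f F) (map f E) (map f Xb) j = f (lT D p m L' g F E Xb j) := by
  rw [lT, lT, map_sum]
  refine Finset.sum_congr rfl fun l hl => ?_
  have hl' := mem_range.1 hl
  have h3 : D * (1 + j + l) ≤ D * (1 + j + L') := Nat.mul_le_mul_left D (by omega)
  have e : psi p (map f g * map f F ^ (p * 1 - m) * map f E ^ j) * map f Xb ^ l =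
      map f (psi p (g * F ^ (p * 1 - m) * E ^ j) * Xb ^ l) := by
    rw [RingHom.map_mul, RHB.map_psi f hp, RingHom.map_mul, RingHom.map_mul, map_pow, map_pow,
      map_pow]
  rw [e, IoA_map f _ (facUnit hu (by omega)), RingHom.map_mul f, RingHom.map_mul f,
    RingHom.map_mul f, RingHom.map_pow f, RingHom.map_neg f, map_natCast, map_natCast,
    map_natCast]

theorem rT_map (f : R →+* S) {D p m J' l : ℕ} {tl : ℕ → ℕ} (hp : 0 < p)
    (hu : ∀ m : ℕ, 1 ≤ m → m < p → IsUnit (m : R)) (h : tl l + J' < p)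
    (g Xa Es : Poly n R) :
    rT D p m J' tl (map f g) (map f Xa) (map f Es) l = f (rT D p m J' tl g Xa Es l) := by
  rw [rT, rT, map_mul, map_natCast, map_sum]
  congr 1
  refine Finset.sum_congr rfl fun j hj => ?_
  have hj' := mem_range.1 hj
  have e : psi p (map f g * map f Xa ^ l * Sg n S ^ (p * tl l - D * (m + l)) * map f Es ^ j) =
      map f (psi p (g * Xa ^ l * Sg n R ^ (p * tl l - D * (m + l)) * Es ^ j)) := by
    rw [RHB.map_psi f hp, RingHom.map_mul, RingHom.map_mul, RingHom.map_mul, map_pow, map_pow,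
      map_pow, map_Sg]
  rw [e, IoA_map f _ (facUnit hu (by omega)), RingHom.map_mul f, RingHom.map_mul f,
    RingHom.map_pow f, RingHom.map_neg f, map_natCast, map_natCast]

theorem rT_pencil {D p m J' l : ℕ} {tl : ℕ → ℕ} (hp : 0 < p)
    (hu : ∀ m : ℕ, 1 ≤ m → m < p → IsUnit (m : R)) (h : tl l + J' < p)
    (g Y Es : Poly n R) :
    rT D p m J' tl (map Polynomial.C g) (C Polynomial.X * map Polynomial.C Y)
      (map Polynomial.C Es) l = Polynomial.X ^ l * Polynomial.C (rT D p m J' tl g Y Es l) := by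
  rw [← rT_map Polynomial.C hp hu h, rT, rT, mul_left_comm]
  congr 1
  rw [Finset.mul_sum]
  refine Finset.sum_congr rfl fun j hj => ?_
  have e : psi p (map Polynomial.C g * (C Polynomial.X * map Polynomial.C Y) ^ l *
      Sg n (Polynomial R) ^ (p * tl l - D * (m + l)) * map Polynomial.C Es ^ j) =
      C (Polynomial.X ^ l) * psi p (map Polynomial.C g * map Polynomial.C Y ^ l *
      Sg n (Polynomial R) ^ (p * tl l - D * (m + l)) * map Polynomial.C Es ^ j) := by
    rw [← psi_C_mul]
    refine congrArg (psi p) ?_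
    have e2 : ∀ a b x y z : Poly n (Polynomial R), a * (x * b) * y * z = x * (a * b * y * z) := by
      intro a b x y z
      ring
    rw [mul_pow, C_pow, e2]
  rw [e, IoA_C_mul]
  ring

end

section
variable {n : ℕ} {O : Type} [CommRing O]

theorem F2_pull (hF2 : F2Stmt) {D p J' c0 m : ℕ} (hD : 0 < D) (hp2 : 2 ≤ p)
    (hu : ∀ m : ℕ, 1 ≤ m → m < p → IsUnit (m : O)) {Y Xp Es : Poly n O}
    (hY : Y.IsHomogeneous D) (hXp : Xp.IsHomogeneous D) (hEsh : Es.IsHomogeneous p)
    {E1 : Poly n (Polynomial O)} (hE1h : E1.IsHomogeneous (p * D))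
    (hE1 : Fx D Polynomial.X (map Polynomial.C Y) ^ p =
      expand p (Fx D (Polynomial.X ^ p) (map Polynomial.C Xp)) + (p : Poly n (Polynomial O)) * E1)
    (hEs : Sg n O ^ p = expand p (Sg n O) + (p : Poly n O) * Es) (hm : 1 ≤ m) (hmp : m ≤ p)
    (h1 : D * (1 + J' + (c0 + 1)) < p) (tl : ℕ → ℕ)
    (htl : ∀ l < c0 * p + 1, 1 ≤ tl l ∧ D * (m + l) ≤ p * tl l ∧ tl l + J' < p)
    {g : Poly n O} (hg : Wt (D * m) g) :
    ∑ j ∈ range J', lT D p m (c0 + 1) (map Polynomial.C g)
        (Fx D Polynomial.X (map Polynomial.C Y)) E1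
        (C (Polynomial.X ^ p) * map Polynomial.C Xp) j -
      ∑ l ∈ range (c0 * p + 1), rT D p m J' tl (map Polynomial.C g)
        (C Polynomial.X * map Polynomial.C Y) (map Polynomial.C Es) l ∈
      It O ((p : O) ^ J') (c0 * p) := by
  have hp0 : 0 < p := by omega
  rw [← Ideal.Quotient.eq, map_sum, map_sum]
  set π := Ideal.Quotient.mk (It O ((p : O) ^ J') (c0 * p)) with hπ
  have hu1 : ∀ m : ℕ, 1 ≤ m → m < p → IsUnit (m : Polynomial O) := by
    intro k hk hkp
    have := (hu k hk hkp).map (Polynomial.C : O →+* Polynomial O)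
    rwa [map_natCast] at this
  have huA : ∀ m : ℕ, 1 ≤ m → m < p →
      IsUnit (m : Polynomial O ⧸ It O ((p : O) ^ J') (c0 * p)) := by
    intro k hk hkp
    have := (hu1 k hk hkp).map π
    rwa [map_natCast] at this
  have hpJ : (p : Polynomial O ⧸ It O ((p : O) ^ J') (c0 * p)) ^ J' = 0 := by
    rw [← map_natCast π, ← map_pow, Ideal.Quotient.eq_zero_iff_mem]
    have : ((p : Polynomial O)) ^ J' = Polynomial.C ((p : O) ^ J') := by
      rw [map_pow, Polynomial.C_eq_natCast]
    rw [this]
    exact Ideal.subset_span (Set.mem_insert _ _)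
  have hX0 : π (Polynomial.X ^ (c0 * p + 1)) = 0 := by
    rw [Ideal.Quotient.eq_zero_iff_mem]
    exact Ideal.subset_span (Set.mem_insert_of_mem _ rfl)
  have hXa : (map π (C Polynomial.X * map Polynomial.C Y) :
      Poly n (Polynomial O ⧸ It O ((p : O) ^ J') (c0 * p))) ^ (c0 * p + 1) = 0 := by
    rw [← map_pow, mul_pow, RingHom.map_mul, ← C_pow, map_C, hX0, C_0, zero_mul]
  have hXb : (map π (C (Polynomial.X ^ p) * map Polynomial.C Xp) :
      Poly n (Polynomial O ⧸ It O ((p : O) ^ J') (c0 * p))) ^ (c0 + 1) = 0 := by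
    have e : ((Polynomial.X : Polynomial O) ^ p) ^ (c0 + 1) =
        Polynomial.X ^ (c0 * p + 1) * Polynomial.X ^ (p - 1) := by
      rw [← pow_mul, ← pow_add]
      congr 1
      have : p * (c0 + 1) = c0 * p + p := by ring
      omega
    rw [← map_pow, mul_pow, RingHom.map_mul, ← C_pow, map_C, e, map_mul, hX0, zero_mul, C_0,
      zero_mul]
  have hFa : Sg n _ ^ D - map π (C Polynomial.X * map Polynomial.C Y) =
      map π (Fx D Polynomial.X (map Polynomial.C Y)) := by
    rw [Fx_map, Fx, RingHom.map_mul, map_C]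
  have hFb : Sg n _ ^ D - map π (C (Polynomial.X ^ p) * map Polynomial.C Xp) =
      map π (Fx D (Polynomial.X ^ p) (map Polynomial.C Xp)) := by
    rw [Fx_map, Fx, RingHom.map_mul, map_C]
  have hEa : (Sg n _ ^ D - map π (C Polynomial.X * map Polynomial.C Y)) ^ p =
      expand p (Sg n _ ^ D - map π (C (Polynomial.X ^ p) * map Polynomial.C Xp)) +
      (p : Poly n (Polynomial O ⧸ It O ((p : O) ^ J') (c0 * p))) * map π E1 := by
    rw [hFa, hFb, ← map_pow, hE1, map_add, RingHom.map_mul, map_natCast, map_expand]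
  have hEs' : Sg n (Polynomial O ⧸ It O ((p : O) ^ J') (c0 * p)) ^ p = expand p (Sg n _) +
      (p : Poly n (Polynomial O ⧸ It O ((p : O) ^ J') (c0 * p))) *
        map π (map Polynomial.C Es) := by
    have h := congrArg (fun q => map π (map Polynomial.C q)) hEs
    simp only [map_pow, map_add, RingHom.map_mul, map_natCast, map_expand, map_Sg] at h
    exact h
  have key := hF2 (Polynomial O ⧸ It O ((p : O) ^ J') (c0 * p)) n D p J' (c0 * p + 1) (c0 + 1)
    hD hp2 hpJ huA (map π (C Polynomial.X * map Polynomial.C Y))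
    (map π (C (Polynomial.X ^ p) * map Polynomial.C Xp)) (map π E1)
    (map π (map Polynomial.C Es)) ((C_mul_hom (hY.map _) _).map _)
    ((C_mul_hom (hXp.map _) _).map _) hXa hXb (hE1h.map _) ((hEsh.map _).map _) hEa hEs'
    m 1 hm le_rfl (by omega) h1 tl htl (map π (map Polynomial.C g)) (wt_map _ (wt_map _ hg))
  rw [hFa] at key
  have eL : ∀ j ∈ range J', π (lT D p m (c0 + 1) (map Polynomial.C g)
        (Fx D Polynomial.X (map Polynomial.C Y)) E1
        (C (Polynomial.X ^ p) * map Polynomial.C Xp) j) =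
      lT D p m (c0 + 1) (map π (map Polynomial.C g))
        (map π (Fx D Polynomial.X (map Polynomial.C Y))) (map π E1)
        (map π (C (Polynomial.X ^ p) * map Polynomial.C Xp)) j := by
    intro j hj
    rw [lT_map π hp0 hu1]
    have h3 : D * (1 + j + (c0 + 1)) ≤ D * (1 + J' + (c0 + 1)) :=
      Nat.mul_le_mul_left D (by have := mem_range.1 hj; omega)
    omega
  have eR : ∀ l ∈ range (c0 * p + 1), π (rT D p m J' tl (map Polynomial.C g)
        (C Polynomial.X * map Polynomial.C Y) (map Polynomial.C Es) l) =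
      rT D p m J' tl (map π (map Polynomial.C g))
        (map π (C Polynomial.X * map Polynomial.C Y)) (map π (map Polynomial.C Es)) l := by
    intro l hl
    rw [rT_map π hp0 hu1 (htl l (mem_range.1 hl)).2.2]
  rw [Finset.sum_congr rfl eL, Finset.sum_congr rfl eR]
  exact key

end

end JF53

end Pool.CUBE
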