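import Pool.Agent.H53.CUBE.JFe

/-!
# Cube project (MP_47888e_al), block TAME part J, module JF: auxiliary lemmas, part f
-/

set_option autoImplicit false
set_option linter.unusedSectionVars false

open Finset MvPolynomial Pool.CM

namespace Pool.CUBE

namespace JF53

section
variable {B : Type} [CommRing B] [Algebra ℚ B] {O0 : Subring B}

theorem mul_inv_B {k : ℕ} (hk : k ≠ 0) : (k : B) * algebraMap ℚ B ((k : ℚ)⁻¹) = 1 := by
  rw [← map_natCast (algebraMap ℚ B), ← map_mul, mul_inv_cancel₀ (by exact_mod_cast hk), map_one]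

theorem unit_O {p : ℕ} (hinv : ∀ m : ℕ, ¬ p ∣ m → algebraMap ℚ B ((m : ℚ)⁻¹) ∈ O0) :
    ∀ m : ℕ, 1 ≤ m → m < p → IsUnit (m : O0) := by
  intro m hm hmp
  have h1 : ¬ p ∣ m := Nat.not_dvd_of_pos_of_lt hm hmp
  refine IsUnit.of_mul_eq_one (⟨_, hinv m h1⟩ : O0) (Subtype.ext ?_)
  rw [Subring.coe_mul, Subring.coe_one]
  have := mul_inv_B (B := B) (k := m) (by omega)
  simpa using this

theorem facw {p : ℕ} (hp : p.Prime)
    (hinv : ∀ m : ℕ, ¬ p ∣ m → algebraMap ℚ B ((m : ℚ)⁻¹) ∈ O0) (N : ℕ) (hN : N < p * p) :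
    ∃ v ≤ N / p, ∃ w ∈ O0, ((N.factorial : ℕ) : B) * w = (p : B) ^ v := by
  induction N with
  | zero => exact ⟨0, Nat.zero_le _, 1, O0.one_mem, by simp⟩
  | succ N ih =>
    obtain ⟨v, hv, w, hw, e⟩ := ih (by omega)
    have hp0 := hp.pos
    by_cases h : p ∣ N + 1
    · obtain ⟨q, hq⟩ := h
      have hq0 : 0 < q := by
        rcases Nat.eq_zero_or_pos q with h0 | h0
        · rw [h0, mul_zero] at hq; omega
        · exact h0
      have hqp : q < p := lt_of_mul_lt_mul_left (by rw [← hq]; exact hN) (Nat.zero_le p)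
      refine ⟨v + 1, ?_, w * algebraMap ℚ B ((q : ℚ)⁻¹),
        O0.mul_mem hw (hinv q (Nat.not_dvd_of_pos_of_lt hq0 hqp)), ?_⟩
      · rw [hq, Nat.mul_div_cancel_left _ hp0]
        have h2 : N / p < q := by
          rw [Nat.div_lt_iff_lt_mul hp0]
          have : q * p = N + 1 := by rw [hq]; ring
          omega
        omega
      · have h3 := mul_inv_B (B := B) (k := q) (by omega)
        rw [Nat.factorial_succ, hq, Nat.cast_mul, Nat.cast_mul, pow_succ, ← e]
        linear_combination (p : B) * ((N.factorial : ℕ) : B) * w * h3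
    · refine ⟨v, hv.trans (Nat.div_le_div_right (Nat.le_succ N)),
        w * algebraMap ℚ B (((N + 1 : ℕ) : ℚ)⁻¹), O0.mul_mem hw (hinv _ h), ?_⟩
      have h3 := mul_inv_B (B := B) (k := N + 1) (by omega)
      rw [Nat.factorial_succ, Nat.cast_mul, ← e]
      linear_combination ((N.factorial : ℕ) : B) * w * h3

theorem facw' {p : ℕ} (hp : p.Prime)
    (hinv : ∀ m : ℕ, ¬ p ∣ m → algebraMap ℚ B ((m : ℚ)⁻¹) ∈ O0) (N M : ℕ) (hN : N < p * (M + 1))
    (hM : M < p) : ∃ w ∈ O0, ((N.factorial : ℕ) : B) * w = (p : B) ^ M := by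
  have h1 : p * (M + 1) ≤ p * p := Nat.mul_le_mul_left p hM
  obtain ⟨v, hv, w, hw, e⟩ := facw (O0 := O0) hp hinv N (by omega)
  have h2 : N / p < M + 1 := by
    rw [Nat.div_lt_iff_lt_mul hp.pos]
    have : (M + 1) * p = p * (M + 1) := by ring
    omega
  refine ⟨(p : B) ^ (M - v) * w, O0.mul_mem (O0.pow_mem (natCast_mem O0 p) _) hw, ?_⟩
  have h3 : (p : B) ^ M = (p : B) ^ (M - v) * (p : B) ^ v := by
    rw [← pow_add]
    congr 1
    omega
  rw [h3, ← e]
  ring

variable {n : ℕ}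

/-- lift to the subring -/
theorem liftO {D : ℕ} {X1 : Poly n B} (hX : X1.IsHomogeneous D) (hc : ∀ a, coeff a X1 ∈ O0) :
    ∃ Y : Poly n O0, map O0.subtype Y = X1 ∧ Y.IsHomogeneous D := by
  classical
  have h : map O0.subtype (∑ a ∈ X1.support, monomial a (⟨coeff a X1, hc a⟩ : O0)) = X1 := by
    conv_rhs => rw [X1.as_sum]
    rw [map_sum]
    refine Finset.sum_congr rfl fun a _ => ?_
    rw [map_monomial]
    rfl
  refine ⟨_, h, fun a ha => hX (d := a) ?_⟩
  intro h0
  apply ha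
  rw [← h, coeff_map] at h0
  exact Subtype.ext h0

theorem term_eq (hIOB : IOBStmt) {D : ℕ} (hD : 0 < D) {X1 : Poly n B} {φ : B →+* B} {p : ℕ}
    (hp : 0 < p) {Y Xp : Poly n O0} (hY : map O0.subtype Y = X1)
    (hXp : map O0.subtype Xp = map φ X1) (hYh : Y.IsHomogeneous D)
    (hXh : Xp.IsHomogeneous D) (hu : ∀ m : ℕ, 1 ≤ m → m < p → IsUnit (m : O0))
    {E1 : Poly n (Polynomial O0)} (hE1h : E1.IsHomogeneous (p * D))
    (hE1 : Fx D Polynomial.X (map Polynomial.C Y) ^ p =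
      expand p (Fx D (Polynomial.X ^ p) (map Polynomial.C Xp)) + (p : Poly n (Polynomial O0)) * E1)
    {EL : Poly n (LaurentSeries B)}
    (hEL : PL D X1 ^ p = expand p (map (FUN.phiL φ p hp) (PL D X1)) +
      (p : Poly n (LaurentSeries B)) * EL)
    {γ : ℕ → LaurentSeries B} (hγ : ∀ j, (j.factorial : LaurentSeries B) * γ j = p ^ j)
    {m : ℕ} (hmp : m ≤ p) {a : Fin (n + 1) →₀ ℕ} (ha : a.degree + (n + 1) = D * m)
    {j L' : ℕ} (hLp : D * (1 + j + L') ≤ p) (k : ℤ) (hk : k - m < p * (L' : ℤ)) :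
    (((-1) ^ j * γ j) * JLp D X1 φ p hp (psi p (monomial a 1 * PL D X1 ^ (p * 1 - m) *
      EL ^ j))).coeff k =
      (ioL O0 (lT D p m L' (monomial a 1) (Fx D Polynomial.X (map Polynomial.C Y)) E1
        (C (Polynomial.X ^ p) * map Polynomial.C Xp) j)).coeff (k - m) := by
  have hP := PL_eq D hY
  have hE := EL_eq hp hY hXp hE1 hEL
  have hpsi := psi_PL hmp hP hE a j
  set F := Fx D Polynomial.X (map Polynomial.C Y) with hF
  set Xb := C (Polynomial.X ^ p) * map Polynomial.C Xp with hXb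
  set H := psi p (monomial a 1 * F ^ (p * 1 - m) * E1 ^ j) with hH
  have hFh : F.IsHomogeneous D := Fx_hom _ (hYh.map _)
  have hHw : Wt (D * (1 + j)) H :=
    RHB.wt_psi hp (RHB.term_wt ha (by omega) hFh hE1h 1)
  have hJ := JLp_term hIOB hD hp hXp hXh hu hLp k m hk H hHw
  have e1 : ((j.factorial : ℕ) : Polynomial O0) * lT D p m L' (monomial a 1) F E1 Xb j =
      (-(p : Polynomial O0)) ^ j * ∑ l ∈ range L', cj D (1 + j) l Xb H := by
    rw [lT, Finset.mul_sum, Finset.mul_sum]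
    refine Finset.sum_congr rfl fun l _ => ?_
    have e2 : (1 + j + l - 1).descFactorial (1 + j - 1) =
        j.factorial * (1 + j + l - 1).choose l := by
      have h1 : 1 + j + l - 1 = j + l := by omega
      have h2 : 1 + j - 1 = j := by omega
      rw [h1, h2, Nat.descFactorial_eq_factorial_mul_choose, Nat.choose_symm_add]
    have h2 : (1 + j - 1).choose j = 1 := by
      have h2 : 1 + j - 1 = j := by omega
      rw [h2, Nat.choose_self]
    rw [cj, e2, h2, ← hH, Nat.cast_one, Nat.cast_mul]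
    ring
  have hj0 : j.factorial ≠ 0 := Nat.factorial_ne_zero j
  refine cancelB hj0 ?_
  rw [← coeff_natCast_mul, ← coeff_natCast_mul]
  have e3 : ((j.factorial : ℕ) : LaurentSeries B) * (((-1) ^ j * γ j) * JLp D X1 φ p hp
      (psi p (monomial a 1 * PL D X1 ^ (p * 1 - m) * EL ^ j))) =
      (-(p : LaurentSeries B)) ^ j * JLp D X1 φ p hp
        (psi p (monomial a 1 * PL D X1 ^ (p * 1 - m) * EL ^ j)) := by
    rw [neg_pow (p : LaurentSeries B), ← hγ j]
    ring
  have e4 : ((j.factorial : ℕ) : LaurentSeries B) * ioL O0 (lT D p m L' (monomial a 1) F E1 Xb j) =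
      (-(p : LaurentSeries B)) ^ j * ioL O0 (∑ l ∈ range L', cj D (1 + j) l Xb H) := by
    have h := congrArg (ioL O0) e1
    rw [map_mul, map_mul, map_pow, map_neg, map_natCast, map_natCast] at h
    exact h
  rw [e3, e4, hpsi]
  have e5 : ∀ f : LaurentSeries B, ∀ e : ℤ,
      ((-(p : LaurentSeries B)) ^ j * f).coeff e = (-(p : B)) ^ j * f.coeff e := by
    intro f e
    have h2 : (-(p : LaurentSeries B)) ^ j = HahnSeries.C ((-(p : B)) ^ j) := by
      rw [map_pow, map_neg, map_natCast]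
    rw [h2, HahnSeries.C_apply, HahnSeries.coeff_single_zero_mul]
  rw [e5, e5, hJ]

end

end JF53

end Pool.CUBE
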